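import Pool.Agent.H86.CMLib9.W5h86.LY.Main2

set_option autoImplicit false

/-!
# From one place to all places
-/

open Module Function Polynomial

noncomputable section

namespace Pool.Agent.W5h86.LY

open Pool.Agent.Y102 Pool.Agent.W516.DR Pool.Agent.W516.KC Pool.Agent.W5h86.LZ

/-- the coefficients of the quotient of the minimal polynomial are independent -/
lemma exists_f {ρ : ℝ} (hρ : IsIntegral ℚ ρ) : ∃ f : ℝ →ₗ[ℚ] ℚ,
    ∀ i < (minpoly ℚ ρ).natDegree, f ((minpolyDiv ℚ ρ).coeff i) = if i = 0 then 1 else 0 := by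
  set n := (minpoly ℚ ρ).natDegree with hn
  have hn0 : 0 < n := minpoly.natDegree_pos hρ
  let β : Fin n → ℝ := fun i => (minpolyDiv ℚ ρ).coeff i
  have hspan : Submodule.span ℚ (Set.range β) =
      Subalgebra.toSubmodule (Algebra.adjoin ℚ {ρ}) := by
    rw [← span_coeff_minpolyDiv hρ]
    apply le_antisymm
    · apply Submodule.span_mono
      rintro _ ⟨i, rfl⟩
      exact ⟨i, rfl⟩
    · rw [Submodule.span_le]
      rintro _ ⟨i, rfl⟩
      by_cases hi : i < n
      · exact Submodule.subset_span ⟨⟨i, hi⟩, rfl⟩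
      · have h1 : (minpolyDiv ℚ ρ).coeff i = 0 := by
          apply coeff_eq_zero_of_natDegree_lt
          have h2 := natDegree_minpolyDiv_lt hρ
          omega
        rw [SetLike.mem_coe, h1]
        exact Submodule.zero_mem _
  have hfin : finrank ℚ (Submodule.span ℚ (Set.range β)) = n := by
    rw [hspan, Subalgebra.finrank_toSubmodule]
    have h1 := (Algebra.adjoin.powerBasis hρ).finrank
    rw [h1, Algebra.adjoin.powerBasis_dim]
  have hli : LinearIndependent ℚ β := by
    rw [linearIndependent_iff_card_eq_finrank_span, Fintype.card_fin]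
    exact hfin.symm
  let T : (Fin n → ℚ) →ₗ[ℚ] ℝ := Fintype.linearCombination ℚ β
  have hT : LinearMap.ker T = ⊥ := by
    rw [LinearMap.ker_eq_bot']
    intro c hc
    funext i
    exact Fintype.linearIndependent_iff.1 hli c hc i
  obtain ⟨G, hG⟩ := T.exists_leftInverse_of_injective hT
  refine ⟨(LinearMap.proj ⟨0, hn0⟩).comp G, fun i hi => ?_⟩
  have h1 : T (Pi.single ⟨i, hi⟩ 1) = (minpolyDiv ℚ ρ).coeff i := by
    rw [Fintype.linearCombination_apply_single, one_smul]
  have h2 := LinearMap.congr_fun hG (Pi.single ⟨i, hi⟩ 1)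
  rw [LinearMap.comp_apply, h1, LinearMap.id_apply] at h2
  rw [LinearMap.comp_apply, h2, LinearMap.proj_apply]
  by_cases h0 : i = 0
  · subst h0
    rw [if_pos rfl, Pi.single_eq_same]
  · rw [if_neg h0, Pi.single_eq_of_ne]
    intro h
    exact h0 (congrArg Fin.val h).symm

variable {g : ℕ} (A : AbVar g) {P : Module.End ℚ A.H1}
  {M : (Fin g → ℂ) →ₗ[ℂ] (Fin g → ℂ)} {e : Basis (Fin g) ℂ (Fin g → ℂ)} {t : Fin g → ℝ}
  {i0 : Fin g}

/-- the real extension as an homomorphism -/
def extA : Module.End ℚ A.H1 →ₐ[ℚ] Module.End ℝ (Fin g → ℂ) where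
  toFun X := A.ext X
  map_one' := A.ext_per fun w => by
    rw [AbVar.ext_apply]
    rfl
  map_mul' X Y := AbVar.ext_mul X Y
  map_zero' := A.ext_per fun w => by
    rw [AbVar.ext_apply, LinearMap.zero_apply, LinearMap.zero_apply, map_zero]
  map_add' X Y := A.ext_per fun w => by
    rw [LinearMap.add_apply, AbVar.ext_apply, AbVar.ext_apply, AbVar.ext_apply,
      LinearMap.add_apply, map_add]
  commutes' r := A.ext_per fun w => by
    rw [AbVar.ext_apply, Module.algebraMap_end_apply, map_smul]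
    rfl

lemma extA_apply (X : Module.End ℚ A.H1) : extA A X = A.ext X := rfl

lemma ext_aeval (R : Module.End ℚ A.H1) (p : ℚ[X]) :
    A.ext (aeval R p) = aeval (extA A R) (p.map (algebraMap ℚ ℝ)) := by
  rw [aeval_map_algebraMap, ← extA_apply, ← aeval_algHom_apply]

variable {A}

/-- the real endomorphism at the place -/
def YY (A : AbVar g) (ρ : ℝ) (R Z : Module.End ℚ A.H1) : (Fin g → ℂ) →ₗ[ℝ] (Fin g → ℂ) :=
  ∑ i ∈ Finset.range (minpoly ℚ ρ).natDegree, (minpolyDiv ℚ ρ).coeff i • A.ext (R ^ i * Z)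

lemma YY_eq {ρ : ℝ} (hρ : IsIntegral ℚ ρ) (R Z : Module.End ℚ A.H1) :
    YY A ρ R Z = aeval (extA A R) (minpolyDiv ℚ ρ) * extA A Z := by
  unfold YY
  rw [aeval_eq_sum_range' (natDegree_minpolyDiv_lt hρ), Finset.sum_mul]
  refine Finset.sum_congr rfl fun i _ => ?_
  rw [smul_mul_assoc, ← map_pow, ← map_mul]
  rfl

lemma YY_root {ρ : ℝ} (hρ : IsIntegral ℚ ρ) {R : Module.End ℚ A.H1} (Z : Module.End ℚ A.H1)
    (hR : aeval R (minpoly ℚ ρ) = 0) (v : Fin g → ℂ) :
    A.ext R (YY A ρ R Z v) = ρ • YY A ρ R Z v := by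
  have h1 : (extA A R - algebraMap ℝ _ ρ) * aeval (extA A R) (minpolyDiv ℚ ρ) = 0 := by
    have h2 : aeval (extA A R) ((X - C ρ) * minpolyDiv ℚ ρ) = 0 := by
      rw [mul_comm (X - C ρ), minpolyDiv_spec, ← ext_aeval, hR]
      exact map_zero (extA A)
    rwa [map_mul, map_sub, aeval_X, aeval_C] at h2
  have h3 : (extA A R - algebraMap ℝ _ ρ) * YY A ρ R Z = 0 := by
    rw [YY_eq hρ, ← mul_assoc, h1, zero_mul]
  have h4 := LinearMap.congr_fun h3 v
  rw [Module.End.mul_apply, LinearMap.sub_apply, Module.algebraMap_end_apply, LinearMap.zero_apply,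
    sub_eq_zero] at h4
  exact h4

/-- **The descent of the annihilation.** -/
lemma kills_of_YY {ρ : ℝ} (hρ : IsIntegral ℚ ρ) {R Z : Module.End ℚ A.H1} {k : ℕ}
    (φ : A.H1 [⋀^Fin k × Fin 2]→ₗ[ℚ] ℚ)
    (h : LZ.Kills (YY A ρ R Z) (MultilinearMap.alternatization (A.Phi φ.toMultilinearMap)))
    (w : Fin k × Fin 2 → A.H1) : ∑ r, φ (update w r (Z (w r))) = 0 := by
  obtain ⟨f, hf⟩ := exists_f hρ
  set N : ℚ := (Fintype.card (Equiv.Perm (Fin k × Fin 2)) : ℚ) with hN
  have hN0 : N ≠ 0 := by
    rw [hN]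
    exact_mod_cast Fintype.card_ne_zero
  set ψ := MultilinearMap.alternatization (A.Phi φ.toMultilinearMap) with hψ
  have h1 := h (fun r => A.per (w r))
  have h2 : ∀ r, ψ (update (fun r => A.per (w r)) r (YY A ρ R Z (A.per (w r)))) =
      ∑ i ∈ Finset.range (minpoly ℚ ρ).natDegree, (minpolyDiv ℚ ρ).coeff i *
        ((N * φ (update w r ((R ^ i * Z) (w r))) : ℚ) : ℝ) := by
    intro r
    have h3 : YY A ρ R Z (A.per (w r)) = ∑ i ∈ Finset.range (minpoly ℚ ρ).natDegree,
        (minpolyDiv ℚ ρ).coeff i • A.per ((R ^ i * Z) (w r)) := by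
      unfold YY
      rw [LinearMap.sum_apply]
      refine Finset.sum_congr rfl fun i _ => ?_
      rw [LinearMap.smul_apply, AbVar.ext_apply]
    rw [h3, ← AlternatingMap.coe_multilinearMap, MultilinearMap.map_update_sum]
    refine Finset.sum_congr rfl fun i _ => ?_
    rw [AlternatingMap.coe_multilinearMap, AlternatingMap.map_update_smul, smul_eq_mul]
    congr 1
    have h4 : update (fun r => A.per (w r)) r (A.per ((R ^ i * Z) (w r))) =
        fun r' => A.per (update w r ((R ^ i * Z) (w r)) r') := by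
      funext r'
      by_cases h5 : r' = r
      · subst h5
        rw [update_self, update_self]
      · rw [update_of_ne h5, update_of_ne h5]
    rw [h4, hψ, alt_Phi, hN]
    push_cast
    rfl
  rw [Finset.sum_congr rfl fun r _ => h2 r, Finset.sum_comm] at h1
  have h5 : ∑ i ∈ Finset.range (minpoly ℚ ρ).natDegree, (minpolyDiv ℚ ρ).coeff i *
      ((N * ∑ r, φ (update w r ((R ^ i * Z) (w r))) : ℚ) : ℝ) = 0 := by
    rw [← h1]
    refine Finset.sum_congr rfl fun i _ => ?_
    rw [← Finset.mul_sum, Finset.mul_sum]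
    push_cast
    rfl
  have h6 := congrArg f h5
  rw [map_zero, map_sum] at h6
  have h7 : ∀ i ∈ Finset.range (minpoly ℚ ρ).natDegree, f ((minpolyDiv ℚ ρ).coeff i *
      ((N * ∑ r, φ (update w r ((R ^ i * Z) (w r))) : ℚ) : ℝ)) =
      if i = 0 then N * ∑ r, φ (update w r ((R ^ i * Z) (w r))) else 0 := by
    intro i hi
    have h8 : (minpolyDiv ℚ ρ).coeff i *
        ((N * ∑ r, φ (update w r ((R ^ i * Z) (w r))) : ℚ) : ℝ) =
        (N * ∑ r, φ (update w r ((R ^ i * Z) (w r)))) • (minpolyDiv ℚ ρ).coeff i := by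
      rw [Rat.smul_def, mul_comm]
    rw [h8, map_smul, hf i (Finset.mem_range.1 hi), smul_eq_mul]
    by_cases h0 : i = 0
    · rw [if_pos h0, if_pos h0, mul_one]
    · rw [if_neg h0, if_neg h0, mul_zero]
  rw [Finset.sum_congr rfl h7, Finset.sum_ite_eq', if_pos (Finset.mem_range.2
    (minpoly.natDegree_pos hρ)), pow_zero, one_mul] at h6
  exact (mul_eq_zero.1 h6).resolve_left hN0

lemma Setup2.sq (h : Setup2 A P M e t i0) (z : Fin g → ℂ) :
    A.ext (-(P * P)) (theta e i0 z) = theta e i0 (fun i => (sc t i0 i ^ 2 : ℝ) * z i) := by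
  have h1 : A.ext (-(P * P)) (theta e i0 z) = -(M (M (theta e i0 z))) := by
    rw [← extA_apply, map_neg, map_mul, LinearMap.neg_apply, Module.End.mul_apply, extA_apply,
      ext_eq h.hM, ext_eq h.hM]
  rw [h1, M_theta h.he, M_theta h.he, ← map_neg]
  congr 1
  funext i
  rw [Pi.neg_apply]
  push_cast
  linear_combination (-(sc t i0 i : ℂ) ^ 2 * z i) * Complex.I_sq

/-- real operators which commute with the multiplication respect the complementary part -/
lemma Setup2.stV (h : Setup2 A P M e t i0) {Y : (Fin g → ℂ) →ₗ[ℝ] (Fin g → ℂ)}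
    (hY : ∀ v, Y (M v) = M (Y v)) {v : Fin g → ℂ} (hv : v ∈ VV e t i0) : Y v ∈ VV e t i0 := by
  obtain ⟨X, rfl⟩ := exists_tr h.cx (h.J_comm' hY)
  obtain ⟨w, rfl⟩ := (theta e i0).surjective v
  rw [mem_VV] at hv
  rw [tr_theta, mem_VV]
  intro i hi
  unfold Matrix.mulVec dotProduct
  refine Finset.sum_eq_zero fun j _ => ?_
  by_cases hj : sc t i0 j = t i0
  · rw [hv j hj, mul_zero]
  · have h1 := congrFun (h.comm_coord hY (ee j)) i
    have h2 : (fun l => (sc t i0 l * Complex.I) * (ee j : Fin g → ℂ) l) =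
        (sc t i0 j * Complex.I : ℂ) • ee j := by
      funext l
      rw [Pi.smul_apply, smul_eq_mul]
      by_cases hl : l = j
      · rw [hl]
      · rw [ee_ne hl, mul_zero, mul_zero]
    rw [h2, Matrix.mulVec_smul, Pi.smul_apply, smul_eq_mul, mulVec_ee] at h1
    have h3 : ((sc t i0 j : ℂ) - sc t i0 i) * Complex.I * X i j = 0 := by
      linear_combination h1
    have h4 : X i j = 0 := by
      refine (mul_eq_zero.1 h3).resolve_left (mul_ne_zero (sub_ne_zero.2 ?_) Complex.I_ne_zero)
      rw [hi]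
      exact_mod_cast hj
    change X i j * w j = 0
    rw [h4, zero_mul]

/-- **All places.** -/
theorem Setup2.final (h : Setup2 A P M e t i0)
    (hsimple : ∀ Q ∈ A.EA, Q ≠ 0 → Function.Injective Q) (hPs : IsSkew A.om P)
    (hdim : 3 ≤ finrank ℂ (UU t i0)) {k : ℕ}
    (hk : 2 * k < finrank ℂ (UU t i0)) (φ : A.H1 [⋀^Fin k × Fin 2]→ₗ[ℚ] ℚ)
    (hφ : IsDeRhamBettiForm QBar A.dR tau k φ.toMultilinearMap)
    {Z : Module.End ℚ A.H1} (hZ1 : IsSkew A.om Z) (hZ2 : Z * P = P * Z)
    (w : Fin k × Fin 2 → A.H1) : ∑ r, φ (update w r (Z (w r))) = 0 := by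
  set R : Module.End ℚ A.H1 := -(P * P) with hR
  set ρ : ℝ := t i0 ^ 2 with hρd
  -- the eigenvector
  have heig : ∀ f : ℚ[X], A.ext (aeval R f) (e i0) = (aeval ρ f) • e i0 := by
    intro f
    have h1 : extA A R (e i0) = ρ • e i0 := by
      rw [extA_apply, ← theta_ee (e := e) (i0 := i0), h.sq, ← map_smul]
      congr 1
      funext i
      rw [Pi.smul_apply, Complex.real_smul]
      by_cases hi : i = i0
      · subst hi
        rw [sc_same, hρd]
      · rw [ee_ne hi, mul_zero, mul_zero]
    have h2 : ∀ q : ℝ[X], aeval (extA A R) q (e i0) = (q.eval ρ) • e i0 := by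
      intro q
      induction q using Polynomial.induction_on' with
      | add p q hp hq => rw [map_add, LinearMap.add_apply, hp, hq, eval_add, add_smul]
      | monomial n a =>
        rw [aeval_monomial, eval_monomial, Module.End.mul_apply, Module.algebraMap_end_apply]
        have h3 : (extA A R ^ n) (e i0) = (ρ ^ n) • e i0 := by
          induction n with
          | zero => rw [pow_zero, pow_zero, one_smul, Module.End.one_apply]
          | succ n ih => rw [pow_succ', Module.End.mul_apply, ih, map_smul, h1, smul_smul, pow_succ]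
        rw [h3, smul_smul]
    rw [ext_aeval, h2, eval_map_algebraMap]
  have he0 : e i0 ≠ 0 := e.ne_zero i0
  have hRint : IsIntegral ℚ R := Algebra.IsIntegral.isIntegral R
  have hρ : IsIntegral ℚ ρ := by
    refine ⟨minpoly ℚ R, minpoly.monic hRint, ?_⟩
    have h1 := heig (minpoly ℚ R)
    rw [minpoly.aeval] at h1
    have h2 : A.ext (0 : Module.End ℚ A.H1) = 0 := map_zero (extA A)
    rw [h2, LinearMap.zero_apply] at h1
    rw [← aeval_def]
    exact (smul_eq_zero.1 h1.symm).resolve_right he0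
  have hRP : R ∈ Algebra.adjoin ℚ {P} := by
    have h1 : P ∈ Algebra.adjoin ℚ {P} := Algebra.self_mem_adjoin_singleton ℚ P
    exact neg_mem (mul_mem h1 h1)
  have hRmin : aeval R (minpoly ℚ ρ) = 0 := by
    by_contra hne
    have h1 : aeval R (minpoly ℚ ρ) ∈ Algebra.adjoin ℚ {P} := by
      have h2 : aeval R (minpoly ℚ ρ) ∈ Algebra.adjoin ℚ {R} := aeval_mem_adjoin_singleton ℚ R
      refine (Algebra.adjoin_le ?_) h2
      rintro x hx
      rw [Set.mem_singleton_iff] at hx
      rw [hx]
      exact hRP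
    have h2 : aeval R (minpoly ℚ ρ) ∈ A.EA := fun X hX => comm_adjoin (h.hP X hX) h1
    have h3 := hsimple _ h2 hne
    obtain ⟨G, hG⟩ := (aeval R (minpoly ℚ ρ)).exists_leftInverse_of_injective
      (LinearMap.ker_eq_bot.2 h3)
    have h4 : A.ext G (A.ext (aeval R (minpoly ℚ ρ)) (e i0)) = e i0 := by
      rw [← LinearMap.comp_apply, ← AbVar.ext_mul]
      have h5 : G * aeval R (minpoly ℚ ρ) = 1 := hG
      rw [h5, ← extA_apply, map_one]
      rfl
    rw [heig, minpoly.aeval, zero_smul, map_zero] at h4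
    exact he0 h4.symm
  -- the real operator
  have hZ2' : ∀ x, Z (P x) = P (Z x) := fun x => LinearMap.congr_fun hZ2 x
  have hRx : ∀ x, R x = -(P (P x)) := fun x => rfl
  have hRZ : R * Z = Z * R := by
    refine LinearMap.ext fun x => ?_
    rw [Module.End.mul_apply, Module.End.mul_apply, hRx, hRx, map_neg, hZ2', hZ2']
  have hRZi : ∀ i, R ^ i * Z = Z * R ^ i := fun i => (show Commute R Z from hRZ).pow_left i
  have hRs : ∀ u v, A.om (R u) v = A.om u (R v) := by
    intro u v
    have h1 := hPs (P u) v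
    have h2 := hPs u (P v)
    simp only [hR, LinearMap.neg_apply, Module.End.mul_apply, map_neg]
    linarith
  have hRis : ∀ i, ∀ u v, A.om ((R ^ i) u) v = A.om u ((R ^ i) v) := by
    intro i
    induction i with
    | zero => intro u v; rfl
    | succ i ih =>
      intro u v
      rw [pow_succ, Module.End.mul_apply, ih, hRs, ← Module.End.mul_apply, ← pow_succ', pow_succ]
  have hYP : ∀ v, YY A ρ R Z (M v) = M (YY A ρ R Z v) := by
    intro v
    rw [← ext_eq h.hM, ← ext_eq h.hM]
    have h1 : YY A ρ R Z * extA A P = extA A P * YY A ρ R Z := by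
      rw [YY_eq hρ]
      have h2 : Commute (extA A R) (extA A P) := by
        have h3 : R * P = P * R := by
          refine LinearMap.ext fun x => ?_
          rw [Module.End.mul_apply, Module.End.mul_apply, hRx, hRx, map_neg]
        change extA A R * extA A P = extA A P * extA A R
        rw [← map_mul, h3, map_mul]
      have h3 : aeval (extA A R) (minpolyDiv ℚ ρ) * extA A P =
          extA A P * aeval (extA A R) (minpolyDiv ℚ ρ) := by
        have h4 : aeval (extA A R) (minpolyDiv ℚ ρ) ∈ Algebra.adjoin ℝ {extA A R} :=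
          aeval_mem_adjoin_singleton ℝ (extA A R)
        have h5 : Algebra.adjoin ℝ {extA A R} ≤ Subalgebra.centralizer ℝ {extA A P} := by
          apply Algebra.adjoin_le
          intro x hx
          rw [Set.mem_singleton_iff] at hx
          rw [SetLike.mem_coe, Subalgebra.mem_centralizer_iff]
          intro y hy
          rw [Set.mem_singleton_iff] at hy
          rw [hx, hy]
          exact h2.symm
        have h6 := Subalgebra.mem_centralizer_iff ℝ |>.1 (h5 h4) (extA A P) rfl
        exact h6.symm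
      have h4 : extA A Z * extA A P = extA A P * extA A Z := by
        rw [← map_mul, hZ2, map_mul]
      rw [mul_assoc, h4, ← mul_assoc, h3, mul_assoc]
    exact LinearMap.congr_fun h1 v
  have hYU : ∀ v, ∃ u ∈ UU t i0, YY A ρ R Z v = theta e i0 u := by
    intro v
    obtain ⟨z, hz⟩ := (theta e i0).surjective (YY A ρ R Z v)
    refine ⟨z, ?_, hz.symm⟩
    rw [mem_UU]
    intro i hi
    have h1 := YY_root hρ Z hRmin v
    rw [← hz, hR, h.sq, ← map_smul] at h1
    have h2 := congrFun ((theta e i0).injective h1) i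
    rw [Pi.smul_apply, Complex.real_smul, ← sub_eq_zero, ← sub_mul] at h2
    refine (mul_eq_zero.1 h2).resolve_left ?_
    rw [← Complex.ofReal_sub, hρd]
    have h3 : sc t i0 i ^ 2 - t i0 ^ 2 = (sc t i0 i - t i0) * (sc t i0 i + t i0) := by ring
    rw [h3]
    have h4 := h.hd i i0
    rw [sc_same] at h4
    exact_mod_cast mul_ne_zero (sub_ne_zero.2 hi) h4
  refine kills_of_YY hρ (R := R) φ (h.kills hdim hk φ hφ (fun u _ => hYU _) (fun v hv => ?_) ?_) w
  · obtain ⟨u, hu, h1⟩ := hYU v
    have h2 := h.stV hYP hv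
    rw [h1, mem_VV] at h2
    rw [mem_UU] at hu
    have h3 : u = 0 := by
      funext i
      by_cases hi : sc t i0 i = t i0
      · exact h2 i hi
      · exact hu i hi
    rw [h1, h3, map_zero]
  · intro u v
    unfold YY
    rw [LinearMap.sum_apply, LinearMap.sum_apply, map_sum, map_sum, LinearMap.sum_apply,
      ← Finset.sum_add_distrib]
    refine Finset.sum_eq_zero fun i _ => ?_
    rw [LinearMap.smul_apply, LinearMap.smul_apply, map_smul, map_smul, LinearMap.smul_apply,
      ← smul_add]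
    have h1 : A.E (A.ext (R ^ i * Z) u) v + A.E u (A.ext (R ^ i * Z) v) = 0 := by
      have h2 : IsSkew A.om (R ^ i * Z) := by
        intro x y
        rw [Module.End.mul_apply, hRis, hRZi, Module.End.mul_apply]
        exact hZ1 x ((R ^ i) y)
      exact CR_skew (C := Submodule.span ℚ {R ^ i * Z}) (fun X hX => by
        obtain ⟨c, rfl⟩ := Submodule.mem_span_singleton.1 hX
        intro x y
        have h3 := h2 x y
        simp only [LinearMap.smul_apply, map_smul]
        rw [← smul_add, h3, smul_zero])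
        (Submodule.subset_span ⟨_, Submodule.mem_span_singleton_self _, rfl⟩) u v
    rw [h1, smul_zero]

end Pool.Agent.W5h86.LY
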