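import Pool.Agent.H86.CMLib9.W5h86.LY.Rat

set_option autoImplicit false

/-!
# The main theorem for fields with complex multiplication
-/

open Module Function

noncomputable section

namespace Pool.Agent.W5h86.LY

open Pool.Agent.Y102 Pool.Agent.W516.DR Pool.Agent.W516.KC Pool.Agent.W5h86.LZ
open Pool.Agent.H204R3.GP

variable {g : ℕ} {A : AbVar g} {P : Module.End ℚ A.H1} {M : (Fin g → ℂ) →ₗ[ℂ] (Fin g → ℂ)}

lemma skew_M (hM : ∀ w, M (A.per w) = A.per (P w)) (hP : IsSkew A.om P) (u v : Fin g → ℂ) :
    A.E (M u) v = -A.E u (M v) := by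
  have h2 : A.E.comp (M.restrictScalars ℝ) = -(A.E.flip.comp (M.restrictScalars ℝ)).flip := by
    refine A.ext_per fun u => A.ext_per fun v => ?_
    change A.E (M (A.per u)) (A.per v) = -A.E (A.per u) (M (A.per v))
    rw [hM, hM, ← AbVar.om_coe, ← AbVar.om_coe, ← Rat.cast_neg]
    congr 1
    linear_combination hP u v
  exact congrArg (fun F : (Fin g → ℂ) →ₗ[ℝ] (Fin g → ℂ) →ₗ[ℝ] ℝ => F u v) h2

/-- the eigenbasis -/
lemma exists_basis_M (hs : ∀ u v, A.E (M u) v = -A.E u (M v)) :
    ∃ (e : Basis (Fin g) ℂ (Fin g → ℂ)) (t : Fin g → ℝ),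
      ∀ i, M (e i) = (t i * Complex.I : ℂ) • e i := by
  have hI : ∀ x y, A.E (Complex.I • x) y = -A.E x (Complex.I • y) := fun x y => by
    rw [(A.E_I x y).2]
  obtain ⟨e, r, her⟩ := A.exists_eigenbasis (fun _ : Fin 1 => Complex.I • M)
    (fun i j => rfl) (fun i u v => by
      rw [LinearMap.smul_apply, LinearMap.smul_apply, hI, hs, neg_neg, map_smul])
  refine ⟨e, fun i => -r 0 i, fun i => ?_⟩
  have h1 := her 0 i
  rw [LinearMap.smul_apply] at h1
  have h2 := congrArg (fun x => (-Complex.I) • x) h1
  simp only [smul_smul] at h2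
  rw [neg_mul, Complex.I_mul_I, neg_neg, one_smul] at h2
  rw [h2]
  congr 1
  push_cast
  ring

/-- **The main theorem.** -/
theorem main2 (A : AbVar g) {P : Module.End ℚ A.H1} (hP : P ∈ A.EA) (hPs : IsSkew A.om P)
    (hEA : ∀ Q ∈ A.EA, Q ∈ Algebra.adjoin ℚ {P})
    (hsimple : ∀ Q ∈ A.EA, Q ≠ 0 → Function.Injective Q)
    {M : (Fin g → ℂ) →ₗ[ℂ] (Fin g → ℂ)} (hM : ∀ w, M (A.per w) = A.per (P w)) {s : ℂ}
    (h1 : finrank ℂ (LinearMap.ker (M - s • LinearMap.id)) = 1)
    (h2 : 2 ≤ finrank ℂ (LinearMap.ker (M + s • LinearMap.id)))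
    (hd : ∀ s' : ℂ, s' ≠ s → s' ≠ -s → LinearMap.ker (M - s' • LinearMap.id) = ⊥ ∨
      LinearMap.ker (M + s' • LinearMap.id) = ⊥) {k : ℕ}
    (hk : 2 * k ≤ finrank ℂ (LinearMap.ker (M + s • LinearMap.id)))
    (φ : A.H1 [⋀^Fin k × Fin 2]→ₗ[ℚ] ℚ)
    (hφ : IsDeRhamBettiForm QBar A.dR tau k φ.toMultilinearMap) {Z : Module.End ℚ A.H1}
    (hZ1 : IsSkew A.om Z) (hZ2 : Z * P = P * Z)
    (w : Fin k × Fin 2 → A.H1) : ∑ r, φ (update w r (Z (w r))) = 0 := by
  obtain ⟨e, t, het⟩ := exists_basis_M (skew_M hM hPs)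
  have hfr : ∀ s : ℂ, finrank ℂ (LinearMap.ker (M - s • LinearMap.id)) =
      Fintype.card {i // (t i * Complex.I : ℂ) = s} := fun s =>
    finrank_eig e M (fun i => (t i * Complex.I : ℂ)) het s
  have hadd : ∀ s : ℂ, LinearMap.ker (M + s • LinearMap.id) =
      LinearMap.ker (M - (-s) • LinearMap.id) := fun s => by
    congr 1
    refine LinearMap.ext fun v => ?_
    simp
  have hfr' : ∀ s : ℂ, finrank ℂ (LinearMap.ker (M + s • LinearMap.id)) =
      Fintype.card {i // (t i * Complex.I : ℂ) = -s} := fun s => by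
    rw [hadd, hfr]
  have hinj : ∀ x y : ℝ, ((x : ℂ) * Complex.I = y * Complex.I) ↔ x = y := by
    intro x y
    constructor
    · intro h
      exact_mod_cast mul_right_cancel₀ Complex.I_ne_zero h
    · intro h
      rw [h]
  rw [hfr] at h1
  obtain ⟨⟨i0, hi0⟩, huniq⟩ := Fintype.card_eq_one_iff.1 h1
  have h0 : ∀ i, i ≠ i0 → t i ≠ t i0 := by
    intro i hi hti
    apply hi
    have h3 := huniq ⟨i, by rw [hti, hi0]⟩
    exact congrArg Subtype.val h3
  rw [hfr'] at h2 hk
  have hneg : ∀ i, ((t i : ℂ) * Complex.I = -s) ↔ t i = -t i0 := by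
    intro i
    rw [← hi0, ← neg_mul, ← Complex.ofReal_neg, hinj]
  have ht0 : t i0 ≠ 0 := by
    intro h
    have h3 : Fintype.card {i // (t i * Complex.I : ℂ) = -s} =
        Fintype.card {i // (t i * Complex.I : ℂ) = s} := by
      have hs0 : s = 0 := by rw [← hi0, h, Complex.ofReal_zero, zero_mul]
      rw [hs0, neg_zero]
    omega
  have hker : ∀ (i : Fin g) (s' : ℂ), (t i * Complex.I : ℂ) = s' →
      LinearMap.ker (M - s' • LinearMap.id) ≠ ⊥ := by
    intro i s' hi hbot
    have h3 : e i ∈ LinearMap.ker (M - s' • LinearMap.id) := by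
      rw [LinearMap.mem_ker, LinearMap.sub_apply, LinearMap.smul_apply, LinearMap.id_apply, het,
        hi, sub_self]
    rw [hbot, Submodule.mem_bot] at h3
    exact e.ne_zero i h3
  have hset : Setup2 A P M e t i0 := by
    refine ⟨hM, het, h0, fun i j => ?_, skew_M hM hPs, hP, hEA⟩
    by_cases hi : i = i0
    · subst hi
      rw [sc_same]
      by_cases hj : j = i
      · subst hj
        rw [sc_same]
        intro h
        apply ht0
        linarith
      · rw [sc_ne hj]
        intro h
        apply h0 j hj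
        linarith
    · rw [sc_ne hi]
      by_cases hj : j = i0
      · subst hj
        rw [sc_same]
        intro h
        apply h0 i hi
        linarith
      · rw [sc_ne hj]
        intro h
        have hji : t j = -t i := by linarith
        have hs1 : (t i * Complex.I : ℂ) ≠ s := by
          rw [← hi0]
          intro h3
          exact h0 i hi ((hinj _ _).1 h3)
        have hs2 : (t i * Complex.I : ℂ) ≠ -s := by
          intro h3
          have h4 := (hneg i).1 h3
          apply h0 j hj
          rw [hji, h4, neg_neg]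
        rcases hd _ hs1 hs2 with h3 | h3
        · exact hker i _ rfl h3
        · rw [hadd] at h3
          refine hker j _ ?_ h3
          rw [hji]
          push_cast
          ring
  have hcard : finrank ℂ (UU t i0) = 1 + Fintype.card {i // (t i * Complex.I : ℂ) = -s} := by
    rw [finrank_UU]
    have h3 : Fintype.card {i // sc t i0 i = t i0} =
        Fintype.card (Option {i // (t i * Complex.I : ℂ) = -s}) := by
      refine Fintype.card_congr
        { toFun := fun x => if hx : x.1 = i0 then none else some ⟨x.1, by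
            rw [hneg]
            have h4 := x.2
            rw [sc_ne hx] at h4
            linarith⟩
          invFun := fun y => match y with
            | none => ⟨i0, sc_same⟩
            | some z => ⟨z.1, by
                have h4 := (hneg z.1).1 z.2
                have h5 : z.1 ≠ i0 := by
                  intro h6
                  rw [h6] at h4
                  apply ht0
                  linarith
                rw [sc_ne h5, h4, neg_neg]⟩
          left_inv := ?_
          right_inv := ?_ }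
      · rintro ⟨x, hx⟩
        by_cases hx0 : x = i0
        · subst hx0
          simp
        · simp [hx0]
      · rintro (_ | ⟨z, hz⟩)
        · simp
        · have h4 := (hneg z).1 hz
          have h5 : z ≠ i0 := by
            intro h6
            rw [h6] at h4
            apply ht0
            linarith
          simp [h5]
    rw [h3, Fintype.card_option, add_comm]
  exact hset.final hsimple hPs (by omega) (by omega) φ hφ hZ1 hZ2 w

/-- the classes are Hodge classes -/
theorem hodge2 (A : AbVar g) {P : Module.End ℚ A.H1} (hP : P ∈ A.EA) {k : ℕ}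
    {φ : A.H1 [⋀^Fin k × Fin 2]→ₗ[ℚ] ℚ}
    (h : ∀ Z : Module.End ℚ A.H1, IsSkew A.om Z → Z * P = P * Z →
      ∀ w : Fin k × Fin 2 → A.H1, ∑ r, φ (update w r (Z (w r))) = 0) :
    IsHodgeTensor (A.per : A.H1 →+ (Fin g → ℂ)) φ.toMultilinearMap :=
  hodge_of_kills _ A.isRationalStructure _ fun Z hZ =>
    h Z (A.MA_skew hZ) (A.MA_comm hZ (A.hodge_end (A.mem_EA.1 hP)))

end Pool.Agent.W5h86.LY
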