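import Pool.Agent.H86.CMLib9.W5h86.LY.Struct2

set_option autoImplicit false

/-!
# The orthonormal basis adapted to the Lie algebra
-/

open Matrix Module

namespace Pool.Agent.W5h86.LY

open Pool.Agent.W5h86.LZ

variable {ι : Type} [Fintype ι] [DecidableEq ι] {𝔥 : Submodule ℝ (Matrix ι ι ℂ)} {p q : ι}
  {U : Submodule ℂ (ι → ℂ)}

lemma GU.exists_fam (h : GU 𝔥 p q U) (m : ℕ) (hm : m + 2 ≤ finrank ℂ U) :
    ∃ f : Fin m → ι → ℂ, (∀ i, f i ∈ AA 𝔥 q p) ∧
      ∀ i j, sp (f i) (f j) = if i = j then 1 else 0 := by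
  induction m with
  | zero => exact ⟨fun i => i.elim0, fun i => i.elim0, fun i => i.elim0⟩
  | succ m ih =>
    obtain ⟨f, hf1, hf2⟩ := ih (by omega)
    set F : Submodule ℂ (ι → ℂ) := Submodule.span ℂ (Set.range f) with hF
    obtain ⟨b, hb, hbF⟩ : ∃ b ∈ AA 𝔥 q p, b ∉ F := by
      by_contra hcon
      push Not at hcon
      have h1 : SA 𝔥 q p ≤ F := Submodule.span_le.2 hcon
      have h2 := h.top
      have h3 : U ≤ F ⊔ (Submodule.span ℂ {ee p} ⊔ Submodule.span ℂ {ee q}) := by
        rw [← h2, sup_assoc]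
        exact sup_le_sup_right h1 _
      have h4 := Submodule.finrank_mono h3
      have h5 := Submodule.finrank_add_le_finrank_add_finrank F
        (Submodule.span ℂ {ee p} ⊔ Submodule.span ℂ {ee q})
      have h6 : finrank ℂ F ≤ m := by
        have := finrank_range_le_card (R := ℂ) f
        rwa [Fintype.card_fin] at this
      have h7 := span_pair_dim p q
      omega
    set b' := b - ∑ i, sp (f i) b • f i with hb'
    have hb'A : b' ∈ AA 𝔥 q p :=
      Submodule.sub_mem _ hb (Submodule.sum_mem _ fun i _ => h.proj (hf1 i) hb)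
    have hb'0 : b' ≠ 0 := by
      intro h0
      apply hbF
      rw [sub_eq_zero] at h0
      rw [h0]
      exact Submodule.sum_mem _ fun i _ =>
        Submodule.smul_mem _ _ (Submodule.subset_span ⟨i, rfl⟩)
    have horth : ∀ i, sp (f i) b' = 0 := by
      intro i
      have h1 : ∀ t : Finset (Fin m), sp (f i) (∑ j ∈ t, sp (f j) b • f j) =
          if i ∈ t then sp (f i) b else 0 := by
        intro t
        induction t using Finset.induction_on with
        | empty => simp [sp]
        | insert c t hc ih2 =>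
          rw [Finset.sum_insert hc, sp_add_right, ih2, sp_smul_right, hf2 i c]
          by_cases hic : i = c
          · subst hic
            simp [hc]
          · simp [hic]
      rw [hb', sp_sub_right, h1, if_pos (Finset.mem_univ _), sub_self]
    have hpos := sp_self_pos hb'0
    set ρ : ℝ := (Real.sqrt (sp b' b').re)⁻¹ with hρ
    have hρ2 : ρ * ρ * (sp b' b').re = 1 := by
      have h1 : Real.sqrt (sp b' b').re * Real.sqrt (sp b' b').re = (sp b' b').re :=
        Real.mul_self_sqrt hpos.le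
      have h2 : Real.sqrt (sp b' b').re ≠ 0 := (Real.sqrt_pos.2 hpos).ne'
      rw [hρ]
      field_simp
      rw [pow_two, h1]
    have hself : sp ((ρ : ℂ) • b') ((ρ : ℂ) • b') = 1 := by
      rw [sp_smul_left, sp_smul_right, sp_self, Complex.star_def, Complex.conj_ofReal,
        ← Complex.ofReal_mul, ← Complex.ofReal_mul, ← mul_assoc, hρ2, Complex.ofReal_one]
    have horth1 : ∀ i, sp (f i) ((ρ : ℂ) • b') = 0 := fun i => by
      rw [sp_smul_right, horth i, mul_zero]
    have horth2 : ∀ i, sp ((ρ : ℂ) • b') (f i) = 0 := fun i => by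
      rw [sp_swap, horth1 i, star_zero]
    refine ⟨Fin.cons ((ρ : ℂ) • b') f, ?_, ?_⟩
    · intro i
      refine Fin.cases ?_ (fun i => ?_) i
      · rw [Fin.cons_zero]
        exact real_smul_mem hb'A ρ
      · rw [Fin.cons_succ]
        exact hf1 i
    · intro i j
      refine Fin.cases ?_ (fun i => ?_) i
      · refine Fin.cases ?_ (fun j => ?_) j
        · rw [Fin.cons_zero, if_pos rfl, hself]
        · rw [Fin.cons_zero, Fin.cons_succ, horth2, if_neg (Fin.succ_ne_zero j).symm]
      · refine Fin.cases ?_ (fun j => ?_) j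
        · rw [Fin.cons_zero, Fin.cons_succ, horth1, if_neg (Fin.succ_ne_zero i)]
        · rw [Fin.cons_succ, Fin.cons_succ, hf2]
          simp only [Fin.succ_inj]

/-- the existence of the operators for a pair of indices -/
def Good2 {κ : Type} (𝔥 : Submodule ℝ (Matrix ι ι ℂ)) (H : Matrix ι ι ℂ) (B : κ → ι → ℂ)
    (i j : κ) : Prop :=
  ∃ T ∈ 𝔥, ∃ c : ℝ, c ≠ 0 ∧ T *ᵥ B j = B i ∧ T *ᵥ B i = (c : ℂ) • B j ∧
    (∀ k, k ≠ i → k ≠ j → T *ᵥ B k = 0) ∧ ∀ v, (∀ k, hf H (B k) v = 0) → T *ᵥ v = 0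

omit [DecidableEq ι] in
lemma Good2.symm {κ : Type} {H : Matrix ι ι ℂ} {B : κ → ι → ℂ} {i j : κ}
    (h : Good2 𝔥 H B i j) : Good2 𝔥 H B j i := by
  obtain ⟨T, hT, c, hc, h1, h2, h3, h4⟩ := h
  have hsm : ∀ (r : ℝ) (v : ι → ℂ), (r • T) *ᵥ v = (r : ℂ) • (T *ᵥ v) := by
    intro r v
    rw [smul_mulVec]
    funext i
    simp
  refine ⟨c⁻¹ • T, 𝔥.smul_mem _ hT, c⁻¹, inv_ne_zero hc, ?_, ?_, fun k hk1 hk2 => ?_,
    fun v hv => ?_⟩
  · rw [hsm, h2, smul_smul, ← Complex.ofReal_mul, inv_mul_cancel₀ hc, Complex.ofReal_one, one_smul]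
  · rw [hsm, h1]
  · rw [hsm, h3 k hk2 hk1, smul_zero]
  · rw [hsm, h4 v hv, smul_zero]

/-- **The adapted orthonormal basis, graded case.** -/
theorem GU.exists_basis (h : GU 𝔥 p q U) {m : ℕ} (hm : m + 2 = finrank ℂ U) :
    ∃ (B : Fin 2 ⊕ Fin m → ι → ℂ) (σ : Fin 2 ⊕ Fin m → ℝ), (∀ i, B i ∈ U) ∧ (∀ i, σ i ≠ 0) ∧
      (∀ i j, hf (J p q) (B i) (B j) = if i = j then (σ i : ℂ) else 0) ∧
      ∀ i j, i ≠ j → Good2 𝔥 (J p q) B i j := by
  obtain ⟨f, hf1, fdo⟩ := h.exists_fam m hm.le
  have fU : ∀ i, f i ∈ U := fun i => h.mem_of (hf1 i)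
  have fp : ∀ i, f i p = 0 := fun i => (hf1 i).2.1
  have fq : ∀ i, f i q = 0 := fun i => (hf1 i).1
  have fm : ∀ i, XX q p (f i) ∈ 𝔥 := fun i => (hf1 i).2.2
  have fm' : ∀ i, XX p q (f i) ∈ 𝔥 := fun i => (h.le (hf1 i)).2.2
  have fd : ∀ i j, i ≠ j → sp (f i) (f j) = 0 := by
    intro i j hij
    rw [fdo, if_neg hij]
  have fo : ∀ i, sp (f i) (f i) = 1 := by
    intro i
    rw [fdo, if_pos rfl]
  clear hf1 fdo
  set s2 : ℝ := (Real.sqrt 2)⁻¹ with hs2
  have hs : (s2 : ℂ) * s2 * 2 = 1 := by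
    have h1 : Real.sqrt 2 * Real.sqrt 2 = 2 := Real.mul_self_sqrt (by norm_num)
    have h2 : Real.sqrt 2 ≠ 0 := (Real.sqrt_pos.2 (by norm_num)).ne'
    have h3 : s2 * s2 * 2 = 1 := by
      rw [hs2]
      field_simp
      rw [pow_two, h1]
    exact_mod_cast h3
  have hs20 : (s2 : ℂ) ≠ 0 := by
    intro h0
    rw [h0] at hs
    simp at hs
  have hstar : star (s2 : ℂ) = (s2 : ℂ) := Complex.conj_ofReal s2
  clear_value s2
  set B : Fin 2 ⊕ Fin m → ι → ℂ :=
    Sum.elim (fun i => if i = 0 then (s2 : ℂ) • (ee p + ee q) else (s2 : ℂ) • (ee p - ee q)) f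
    with hB
  have hBp : B (Sum.inl 0) = (s2 : ℂ) • (ee p + ee q) := rfl
  have hBq : B (Sum.inl 1) = (s2 : ℂ) • (ee p - ee q) := rfl
  have hBo : ∀ i, B (Sum.inr i) = f i := fun i => rfl
  clear_value B
  have Bpp : B (Sum.inl 0) p = s2 := by rw [hBp]; simp [h.ne]
  have Bpq : B (Sum.inl 0) q = s2 := by rw [hBp]; simp [h.ne.symm]
  have Bqp : B (Sum.inl 1) p = s2 := by rw [hBq]; simp [h.ne]
  have Bqq : B (Sum.inl 1) q = -s2 := by rw [hBq]; simp [h.ne.symm]
  have Bop : ∀ i, B (Sum.inr i) p = 0 := fun i => by rw [hBo i, fp i]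
  have Boq : ∀ i, B (Sum.inr i) q = 0 := fun i => by rw [hBo i, fq i]
  have spp : ∀ i, sp (f i) (B (Sum.inl 0)) = 0 := by
    intro i
    rw [hBp, sp_smul_right, sp_add_right, sp_ee, sp_ee, fp i, fq i]
    simp
  have spq : ∀ i, sp (f i) (B (Sum.inl 1)) = 0 := by
    intro i
    rw [hBq, sp_smul_right, sp_sub_right, sp_ee, sp_ee, fp i, fq i]
    simp
  have spo : ∀ i, sp (f i) (B (Sum.inr i)) = 1 := fun i => by
    rw [hBo i, fo i]
  have spd : ∀ i, ∀ j, j ≠ Sum.inr i → sp (f i) (B j) = 0 := by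
    intro i j hj
    rcases j with j | j
    · have hj2 : j = 0 ∨ j = 1 := by
        clear hj
        revert j
        decide
      rcases hj2 with rfl | rfl
      · exact spp i
      · exact spq i
    · rw [hBo]
      exact fd i j (fun h => hj (by rw [h]))
  -- the hermitian form
  have hfp : ∀ v, hf (J p q) (B (Sum.inl 0)) v = s2 * (v q + v p) := by
    intro v
    rw [hBp, hf_smul_left, hf_add_left, hf_J_p h.ne, hf_J_q h.ne, hstar]
  have hfq : ∀ v, hf (J p q) (B (Sum.inl 1)) v = s2 * (v q - v p) := by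
    intro v
    rw [hBq, hf_smul_left, hf_sub_left, hf_J_p h.ne, hf_J_q h.ne, hstar]
  have hfo : ∀ i, ∀ v, hf (J p q) (B (Sum.inr i)) v = -sp (f i) v := by
    intro i v
    rw [hBo i, hf_J_t h.ne (fp i) (fq i)]
  have hvan : ∀ v, (∀ k, hf (J p q) (B k) v = 0) → v p = 0 ∧ v q = 0 ∧ ∀ i, sp (f i) v = 0 := by
    intro v hv
    have h1 := hv (Sum.inl 0)
    have h2 := hv (Sum.inl 1)
    rw [hfp] at h1
    rw [hfq] at h2
    have h3 := (mul_eq_zero.1 h1).resolve_left hs20
    have h4 := (mul_eq_zero.1 h2).resolve_left hs20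
    refine ⟨?_, ?_, fun i => ?_⟩
    · linear_combination (1 / 2 : ℂ) * h3 - (1 / 2 : ℂ) * h4
    · linear_combination (1 / 2 : ℂ) * h3 + (1 / 2 : ℂ) * h4
    · have h5 := hv (Sum.inr i)
      rw [hfo, neg_eq_zero] at h5
      exact h5
  have hinl : ∀ j : Fin 2, j = 0 ∨ j = 1 := by decide
  refine ⟨B, fun i => if i = Sum.inl 0 then 1 else -1, ?_, fun i => by
    by_cases hip : i = Sum.inl 0
    · simp [hip]
    · simp [hip], ?_, ?_⟩
  · intro i
    rcases i with i | i
    · rcases hinl i with rfl | rfl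
      · rw [hBp]
        exact U.smul_mem _ (U.add_mem h.ep h.eq)
      · rw [hBq]
        exact U.smul_mem _ (U.sub_mem h.ep h.eq)
    · rw [hBo]
      exact fU i
  · intro i j
    beta_reduce
    rcases i with i | i
    · rcases hinl i with rfl | rfl
      · rw [hfp]
        rcases j with j | j
        · rcases hinl j with rfl | rfl
          · rw [Bpp, Bpq, if_pos rfl, if_pos rfl]
            push_cast
            linear_combination hs
          · rw [if_neg (by simp), Bqq, Bqp]
            ring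
        · rw [if_neg (by simp), Bop, Boq]
          ring
      · rw [hfq]
        rcases j with j | j
        · rcases hinl j with rfl | rfl
          · rw [if_neg (by simp), Bpp, Bpq]
            ring
          · rw [Bqq, Bqp, if_pos rfl, if_neg (by simp)]
            push_cast
            linear_combination -hs
        · rw [if_neg (by simp), Bop, Boq]
          ring
    · rw [hfo]
      by_cases hij : Sum.inr i = j
      · subst hij
        rw [spo, if_pos rfl, if_neg (by simp)]
        push_cast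
        ring
      · rw [spd i j (Ne.symm hij), if_neg hij, neg_zero]
  · have hsm : ∀ (T : Matrix ι ι ℂ) (r : ℝ) (v : ι → ℂ), (r • T) *ᵥ v = (r : ℂ) • (T *ᵥ v) := by
      intro T r v
      rw [smul_mulVec]
      funext i
      simp
    have gp : ∀ j, Good2 𝔥 (J p q) B (Sum.inl 0) (Sum.inr j) := by
      intro j
      have hT : ∀ v, (s2 • (XX p q (f j) + XX q p (f j))) *ᵥ v =
          (s2 * (v q + v p)) • f j + (s2 * sp (f j) v) • (ee p + ee q) := by
        intro v
        rw [hsm, add_mulVec, XX_mulVec, XX_mulVec]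
        funext i
        simp only [Pi.add_apply, Pi.smul_apply, smul_eq_mul]
        ring
      refine ⟨s2 • (XX p q (f j) + XX q p (f j)),
        𝔥.smul_mem _ (𝔥.add_mem (fm' j) (fm j)), 1, one_ne_zero, ?_, ?_, ?_, ?_⟩
      · rw [hT, Bop, Boq, spo, hBp, add_zero, mul_zero, zero_smul, zero_add, mul_one]
      · rw [hT, Bpp, Bpq, spp, mul_zero, zero_smul, add_zero, hBo]
        congr 1
        push_cast
        linear_combination hs
      · intro k hkp hkj
        rw [hT, spd j k hkj, mul_zero, zero_smul, add_zero]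
        rcases k with k | k
        · rcases hinl k with rfl | rfl
          · exact absurd rfl hkp
          · rw [Bqq, Bqp, neg_add_cancel, mul_zero, zero_smul]
        · rw [Bop, Boq, add_zero, mul_zero, zero_smul]
      · intro v hv
        obtain ⟨h1, h2, h3⟩ := hvan v hv
        rw [hT, h1, h2, h3]
        simp
    have gq : ∀ j, Good2 𝔥 (J p q) B (Sum.inl 1) (Sum.inr j) := by
      intro j
      have hT : ∀ v, (s2 • (XX p q (f j) - XX q p (f j))) *ᵥ v =
          (s2 * (v q - v p)) • f j + (s2 * sp (f j) v) • (ee p - ee q) := by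
        intro v
        rw [hsm, sub_mulVec, XX_mulVec, XX_mulVec]
        funext i
        simp only [Pi.add_apply, Pi.sub_apply, Pi.smul_apply, smul_eq_mul]
        ring
      refine ⟨s2 • (XX p q (f j) - XX q p (f j)),
        𝔥.smul_mem _ (𝔥.sub_mem (fm' j) (fm j)), -1, by norm_num, ?_, ?_, ?_, ?_⟩
      · rw [hT, Bop, Boq, spo, hBq, sub_zero, mul_zero, zero_smul, zero_add, mul_one]
      · rw [hT, Bqp, Bqq, spq, mul_zero, zero_smul, add_zero, hBo]
        congr 1
        push_cast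
        linear_combination -hs
      · intro k hkq hkj
        rw [hT, spd j k hkj, mul_zero, zero_smul, add_zero]
        rcases k with k | k
        · rcases hinl k with rfl | rfl
          · rw [Bpp, Bpq, sub_self, mul_zero, zero_smul]
          · exact absurd rfl hkq
        · rw [Bop, Boq, sub_zero, mul_zero, zero_smul]
      · intro v hv
        obtain ⟨h1, h2, h3⟩ := hvan v hv
        rw [hT, h1, h2, h3]
        simp
    have hbr : ∀ i j v,
        (XX p q (f i) * XX q p (f j) - XX q p (f j) * XX p q (f i)) *ᵥ v =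
        (v p * sp (f i) (f j)) • ee p + sp (f j) v • f i - (v q * sp (f j) (f i)) • ee q -
        sp (f i) v • f j := by
      intro i j v
      rw [XX_bracket (fp i) (fq j), XX_q (fq i), XX_q (p := q) (q := p) (fp j)]
    have hr : 0 < m := by
      have := h.dim
      omega
    have gpq : Good2 𝔥 (J p q) B (Sum.inl 0) (Sum.inl 1) := by
      refine ⟨_, h.br _ (fm' ⟨0, hr⟩) _ (fm ⟨0, hr⟩), 1, one_ne_zero, ?_, ?_, ?_, ?_⟩
      · rw [hbr, Bqp, Bqq, spq, fo, hBp]
        funext i
        simp only [Pi.add_apply, Pi.sub_apply, Pi.smul_apply, smul_eq_mul]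
        ring
      · rw [hbr, Bpp, Bpq, spp, fo, hBq]
        funext i
        simp only [Pi.add_apply, Pi.sub_apply, Pi.smul_apply, smul_eq_mul]
        push_cast
        ring
      · intro k hkp hkq
        rcases k with k | k
        · rcases hinl k with rfl | rfl
          · exact absurd rfl hkp
          · exact absurd rfl hkq
        · rw [hbr, Bop, Boq]
          funext i
          simp only [Pi.add_apply, Pi.sub_apply, Pi.smul_apply, smul_eq_mul, Pi.zero_apply]
          ring
      · intro v hv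
        obtain ⟨h1, h2, h3⟩ := hvan v hv
        rw [hbr, h1, h2, h3]
        simp
    have go : ∀ i j, i ≠ j → Good2 𝔥 (J p q) B (Sum.inr i) (Sum.inr j) := by
      intro i j hij
      refine ⟨_, h.br _ (fm' i) _ (fm j), -1, by norm_num, ?_, ?_, ?_, ?_⟩
      · rw [hbr i j, fd i j hij, fd j i (Ne.symm hij), spo,
          spd i _ (by simpa using Ne.symm hij), hBo i]
        simp
      · rw [hbr i j, fd i j hij, fd j i (Ne.symm hij), spo, spd j _ (by simpa using hij), hBo j]
        simp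
      · intro k hki hkj
        rw [hbr i j, fd i j hij, fd j i (Ne.symm hij), spd i k hki, spd j k hkj]
        simp
      · intro v hv
        obtain ⟨h1, h2, h3⟩ := hvan v hv
        rw [hbr, h1, h2, h3, h3]
        simp
    intro i j hij
    rcases i with i | i
    · rcases hinl i with rfl | rfl
      · rcases j with j | j
        · rcases hinl j with rfl | rfl
          · exact absurd rfl hij
          · exact gpq
        · exact gp j
      · rcases j with j | j
        · rcases hinl j with rfl | rfl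
          · exact gpq.symm
          · exact absurd rfl hij
        · exact gq j
    · rcases j with j | j
      · rcases hinl j with rfl | rfl
        · exact (gp i).symm
        · exact (gq i).symm
      · exact go i j (fun h => hij (by rw [h]))

/-- the orthogonal decomposition -/
lemma UData.decomp {H : Matrix ι ι ℂ} (h : UData 𝔥 H U) (v : ι → ℂ) :
    ∃ u ∈ U, ∀ u' ∈ U, hf H u' (v - u) = 0 := by
  obtain ⟨u₀, hu₀, hpos⟩ := h.pos
  let b : Basis (Fin (finrank ℂ U)) ℂ U := finBasis ℂ U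
  let Φ : (ι → ℂ) →ₗ[ℂ] (Fin (finrank ℂ U) → ℂ) := LinearMap.pi fun i => hfL H (b i : ι → ℂ)
  have hΦ : ∀ v i, Φ v i = hf H (b i) v := fun v i => rfl
  have hker : ∀ v, v ∈ LinearMap.ker Φ ↔ ∀ u ∈ U, hf H u v = 0 := by
    intro v
    rw [LinearMap.mem_ker]
    constructor
    · intro h0 u hu
      have h1 : u = ((∑ i, b.repr ⟨u, hu⟩ i • b i : U) : ι → ℂ) := by rw [b.sum_repr]
      have h2 : ∀ s : Finset (Fin (finrank ℂ U)),
          hf H ((∑ i ∈ s, b.repr ⟨u, hu⟩ i • b i : U) : ι → ℂ) v = 0 := by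
        intro s
        induction s using Finset.induction_on with
        | empty =>
          rw [Finset.sum_empty]
          exact hf_zero_left H v
        | insert a s ha ih =>
          rw [Finset.sum_insert ha, Submodule.coe_add, Submodule.coe_smul, hf_add_left,
            hf_smul_left, ih, ← hΦ, h0]
          simp
      rw [h1]
      exact h2 _
    · intro h0
      funext i
      exact h0 _ (b i).2
  have hdisj : U ⊓ LinearMap.ker Φ = ⊥ := by
    rw [eq_bot_iff]
    rintro v ⟨hv1, hv2⟩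
    have h1 := (hker v).1 hv2
    rw [Submodule.mem_bot]
    by_contra hv0
    have h2 := neg_of_orth h.lor h.herm hpos hv0 (h1 u₀ hu₀)
    rw [qf_eq, h1 v hv1] at h2
    exact lt_irrefl _ h2
  have htop : U ⊔ LinearMap.ker Φ = ⊤ := by
    apply Submodule.eq_top_of_finrank_eq
    have h1 := Submodule.finrank_sup_add_finrank_inf_eq U (LinearMap.ker Φ)
    rw [hdisj, finrank_bot, add_zero] at h1
    have h2 := LinearMap.finrank_range_add_finrank_ker Φ
    have h3 := Submodule.finrank_le (LinearMap.range Φ)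
    rw [finrank_fintype_fun_eq_card, Fintype.card_fin] at h3
    have h4 := Submodule.finrank_le (U ⊔ LinearMap.ker Φ)
    omega
  have h1 : v ∈ U ⊔ LinearMap.ker Φ := by
    rw [htop]
    trivial
  obtain ⟨u, hu, y, hy, huy⟩ := Submodule.mem_sup.1 h1
  refine ⟨u, hu, fun u' hu' => ?_⟩
  rw [← huy, add_sub_cancel_left]
  exact (hker y).1 hy u' hu'

/-- eigenvectors which are not in the orthogonal complement -/
lemma UData.eig_mem {H : Matrix ι ι ℂ} (h : UData 𝔥 H U) {X : Matrix ι ι ℂ} (hX : X ∈ 𝔥)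
    {g : ι → ℂ} {μ : ℂ} (hμ : μ.re ≠ 0) (hg : X *ᵥ g = μ • g) : g ∈ U := by
  obtain ⟨u₀, hu₀, hpos⟩ := h.pos
  obtain ⟨u, hu, hy⟩ := h.decomp g
  set y := g - u with hyd
  have h1 : ∀ u' ∈ U, hf H u' (X *ᵥ y) = 0 := by
    intro u' hu'
    have h2 := hf_skew (h.skew X hX) u' y
    rw [hy _ (h.st X hX u' hu'), zero_add] at h2
    exact h2
  have h2 : X *ᵥ y - μ • y = μ • u - X *ᵥ u := by
    rw [hyd, mulVec_sub, hg, smul_sub]
    abel
  have h3 : X *ᵥ y - μ • y = 0 := by
    have h4 : X *ᵥ y - μ • y ∈ U := by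
      rw [h2]
      exact U.sub_mem (U.smul_mem _ hu) (h.st X hX u hu)
    have h5 : ∀ u' ∈ U, hf H u' (X *ᵥ y - μ • y) = 0 := by
      intro u' hu'
      rw [hf_sub_right, h1 u' hu', hf_smul_right, hy u' hu', mul_zero, sub_zero]
    by_contra h0
    have h6 := neg_of_orth h.lor h.herm hpos h0 (h5 u₀ hu₀)
    rw [qf_eq, h5 _ h4] at h6
    exact lt_irrefl _ h6
  have h4 : hf H y y = 0 := by
    have h5 := isotropic (h.skew X hX) (sub_eq_zero.1 h3)
    refine (mul_eq_zero.1 h5).resolve_left ?_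
    exact mul_ne_zero two_ne_zero (by exact_mod_cast hμ)
  have h5 : y = 0 := by
    by_contra h0
    have h6 := neg_of_orth h.lor h.herm hpos h0 (hy u₀ hu₀)
    rw [qf_eq, h4] at h6
    exact lt_irrefl _ h6
  have h6 : g = u := by
    rw [← sub_eq_zero]
    exact h5
  rw [h6]
  exact hu

/-- **Lie algebras of Lorentzian type.** -/
theorem UData.exists_basis {H : Matrix ι ι ℂ} (h : UData 𝔥 H U) {m : ℕ}
    (hm : m + 2 = finrank ℂ U) :
    ∃ (B : Fin 2 ⊕ Fin m → ι → ℂ) (σ : Fin 2 ⊕ Fin m → ℝ), (∀ i, B i ∈ U) ∧ (∀ i, σ i ≠ 0) ∧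
      (∀ i j, hf H (B i) (B j) = if i = j then (σ i : ℂ) else 0) ∧
      ∀ i j, i ≠ j → Good2 𝔥 H B i j := by
  obtain ⟨p, q, hpq⟩ : ∃ p q : ι, p ≠ q := by
    have h1 : 1 < Fintype.card ι := by
      have h2 := Submodule.finrank_le U
      rw [finrank_fintype_fun_eq_card] at h2
      have := h.dim
      omega
    exact Fintype.one_lt_card_iff.1 h1
  obtain ⟨X, hX, hpos⟩ := h.exists_trace_pos
  obtain ⟨g, μ, ρ, hρ, hg, hμ, hJ⟩ := exists_adapted h.herm h.lor h.det (h.skew X hX) hpos hpq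
  let P : Matrix ι ι ℂ := Matrix.of fun i j => g j i
  have hP : ∀ j, P *ᵥ ee j = g j := fun j => by
    rw [mulVec_single_one]
    rfl
  have hPJ : Pᴴ * H * P = J p q := by
    ext i j
    rw [← hJ i j, Matrix.mul_assoc]
    unfold hf
    rfl
  have hXP : X * P = P * diagonal μ := by
    ext i j
    have h3 := congrFun (hg j) i
    rw [mul_diagonal]
    have h4 : (X * P) i j = (X *ᵥ g j) i := rfl
    rw [h4, h3, Pi.smul_apply, smul_eq_mul, mul_comm]
    rfl
  set Q : Matrix ι ι ℂ := J p q * (Pᴴ * H) with hQ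
  have hQP : Q * P = 1 := by
    rw [hQ, Matrix.mul_assoc, hPJ, J_mul_J hpq]
  have hPQ : P * Q = 1 := mul_eq_one_comm.1 hQP
  clear_value Q
  have hPQv : ∀ v, P *ᵥ (Q *ᵥ v) = v := fun v => by rw [mulVec_mulVec, hPQ, one_mulVec]
  have hQPv : ∀ v, Q *ᵥ (P *ᵥ v) = v := fun v => by rw [mulVec_mulVec, hQP, one_mulVec]
  have hhf : ∀ u v, hf (J p q) u v = hf H (P *ᵥ u) (P *ᵥ v) := by
    intro u v
    rw [← hPJ]
    unfold hf
    rw [star_mulVec, ← dotProduct_mulVec, mulVec_mulVec, mulVec_mulVec, Matrix.mul_assoc]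
  have hgU : ∀ i, dg p q i ≠ 0 → g i ∈ U := by
    intro i hi
    refine h.eig_mem hX ?_ (hg i)
    rw [hμ]
    exact mul_ne_zero (by exact_mod_cast hi) hρ
  -- transport of the Lie algebra
  set 𝔥' := 𝔥.comap (conjL P Q) with h𝔥'
  have hmem : ∀ Z, Z ∈ 𝔥' ↔ P * Z * Q ∈ 𝔥 := fun Z => by
    rw [h𝔥', Submodule.mem_comap, conjL_apply]
  have hmul : ∀ X Y : Matrix ι ι ℂ, P * X * Q * (P * Y * Q) = P * (X * Y) * Q := by
    intro X Y
    have h1 : P * X * Q * (P * Y * Q) = P * X * (Q * P) * Y * Q := by noncomm_ring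
    rw [h1, hQP, Matrix.mul_one]
    noncomm_ring
  have hback : ∀ X : Matrix ι ι ℂ, P * (Q * X * P) * Q = X := by
    intro X
    have h1 : P * (Q * X * P) * Q = (P * Q) * X * (P * Q) := by noncomm_ring
    rw [h1, hPQ, Matrix.one_mul, Matrix.mul_one]
  have hact : ∀ Z v, (P * Z * Q) *ᵥ (P *ᵥ v) = P *ᵥ (Z *ᵥ v) := by
    intro Z v
    rw [mulVec_mulVec, mulVec_mulVec, Matrix.mul_assoc (P * Z), hQP, Matrix.mul_one]
  set U' : Submodule ℂ (ι → ℂ) := U.comap P.mulVecLin with hU'
  have hmemU : ∀ v, v ∈ U' ↔ P *ᵥ v ∈ U := fun v => Iff.rfl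
  have hbr : ∀ X ∈ 𝔥', ∀ Y ∈ 𝔥', X * Y - Y * X ∈ 𝔥' := by
    intro X hX Y hY
    rw [hmem] at hX hY ⊢
    have h1 := h.br _ hX _ hY
    rw [hmul, hmul] at h1
    have h2 : P * (X * Y - Y * X) * Q = P * (X * Y) * Q - P * (Y * X) * Q := by noncomm_ring
    rw [h2]
    exact h1
  have hsk : ∀ X ∈ 𝔥', Xᴴ * J p q + J p q * X = 0 := by
    intro X hX
    rw [hmem] at hX
    have h1 := h.skew _ hX
    have h2 : Pᴴ * ((P * X * Q)ᴴ * H + H * (P * X * Q)) * P = 0 := by
      rw [h1, Matrix.mul_zero, Matrix.zero_mul]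
    have h3 : Pᴴ * Qᴴ = 1 := by rw [← conjTranspose_mul, hQP, conjTranspose_one]
    have h4 : Pᴴ * ((P * X * Q)ᴴ * H + H * (P * X * Q)) * P =
        (Pᴴ * Qᴴ) * Xᴴ * (Pᴴ * H * P) + Pᴴ * H * P * X * (Q * P) := by
      rw [conjTranspose_mul, conjTranspose_mul]
      noncomm_ring
    rw [h4, h3, hQP, Matrix.one_mul, Matrix.mul_one, hPJ] at h2
    exact h2
  have hdiag : diagonal μ ∈ 𝔥' := by
    rw [hmem, ← hXP, Matrix.mul_assoc, hPQ, Matrix.mul_one]
    exact hX
  have hG : GU 𝔥' p q U' := by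
    refine ⟨hpq, hbr, hsk, fun Y hY k => pr_mem hbr hpq hsk hρ hμ hdiag hY k, ?_, ?_, ?_, ?_, ?_⟩
    · rw [hmemU, hP]
      exact hgU p (by rw [dg_p]; exact one_ne_zero)
    · rw [hmemU, hP]
      exact hgU q (by rw [dg_q hpq]; norm_num)
    · intro Z hZ u hu
      rw [hmemU] at hu ⊢
      rw [← hact]
      exact h.st _ ((hmem Z).1 hZ) _ hu
    · intro N hNU hN
      rcases h.irr (N.map P.mulVecLin) (by
          rintro _ ⟨c, hc, rfl⟩
          exact hNU hc) (by
          rintro Z hZ _ ⟨c, hc, rfl⟩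
          refine ⟨(Q * Z * P) *ᵥ c, hN _ ?_ c hc, ?_⟩
          · rw [hmem, hback]
            exact hZ
          · simp only [mulVecLin_apply]
            rw [← hact, hback]) with h2 | h2
      · left
        rw [eq_bot_iff]
        intro c hc
        have h3 : P *ᵥ c ∈ N.map P.mulVecLin := ⟨c, hc, rfl⟩
        rw [h2, Submodule.mem_bot] at h3
        rw [Submodule.mem_bot, ← hQPv c, h3, mulVec_zero]
      · right
        refine le_antisymm hNU fun c hc => ?_
        have h3 : P *ᵥ c ∈ N.map P.mulVecLin := by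
          rw [h2]
          exact hc
        obtain ⟨c', hc', h4⟩ := h3
        have h5 : c' = c := by
          rw [← hQPv c', ← hQPv c]
          exact congrArg (fun v => Q *ᵥ v) h4
        rw [← h5]
        exact hc'
    · have h1 : finrank ℂ U' = finrank ℂ U := by
        have hinj : Function.Injective P.mulVecLin := by
          intro u v huv
          simp only [mulVecLin_apply] at huv
          rw [← hQPv u, huv, hQPv]
        have h2 : U'.map P.mulVecLin = U := by
          apply Submodule.map_comap_eq_of_surjective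
          intro v
          exact ⟨Q *ᵥ v, hPQv v⟩
        rw [← h2]
        exact (Submodule.equivMapOfInjective _ hinj U').finrank_eq
      rw [h1]
      exact h.dim
  have hdimU : finrank ℂ U' = finrank ℂ U := by
    have hinj : Function.Injective P.mulVecLin := by
      intro u v huv
      simp only [mulVecLin_apply] at huv
      rw [← hQPv u, huv, hQPv]
    have h2 : U'.map P.mulVecLin = U := by
      apply Submodule.map_comap_eq_of_surjective
      intro v
      exact ⟨Q *ᵥ v, hPQv v⟩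
    rw [← h2]
    exact (Submodule.equivMapOfInjective _ hinj U').finrank_eq
  obtain ⟨B, σ, hBU, hσ, hB, hGood⟩ := hG.exists_basis (hm.trans hdimU.symm)
  refine ⟨fun i => P *ᵥ B i, σ, hBU, hσ, fun i j => ?_, fun i j hij => ?_⟩
  · rw [← hhf, hB]
  · obtain ⟨T, hT, c, hc, h1, h2, h3, h4⟩ := hGood i j hij
    refine ⟨P * T * Q, (hmem T).1 hT, c, hc, ?_, ?_, fun k hk1 hk2 => ?_, fun v hv => ?_⟩
    · rw [hact, h1]
    · rw [hact, h2, mulVec_smul]
    · rw [hact, h3 k hk1 hk2, mulVec_zero]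
    · rw [← hPQv v, hact, h4 (Q *ᵥ v) (fun k => by rw [hhf, hPQv]; exact hv k), mulVec_zero]

end Pool.Agent.W5h86.LY
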