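import Pool.Agent.H86.CMLib9.W5h86.LZ.Uniq

set_option autoImplicit false

/-!
# Forms on a sum of two spaces which are invariant under operators on the first one
-/

open Module

namespace Pool.Agent.W5h86.LY

open Pool.Agent.W5h86.LZ

variable {κ : Type} [Fintype κ] [DecidableEq κ]

section Basic

variable {V : Type} [AddCommGroup V] [Module ℝ V]

lemma kills_domDomCongr {N N' : Type} [Fintype N] [DecidableEq N] [Fintype N'] [DecidableEq N']
    (σ : N ≃ N') {T : V →ₗ[ℝ] V} {ψ : V [⋀^N]→ₗ[ℝ] ℝ} :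
    Kills T (ψ.domDomCongr σ) ↔ Kills T ψ := by
  have key : ∀ v : N' → V, ∑ r, (ψ.domDomCongr σ) (Function.update v r (T (v r))) =
      ∑ r, ψ (Function.update (fun i => v (σ i)) r (T (v (σ r)))) := by
    intro v
    rw [← Equiv.sum_comp σ]
    refine Finset.sum_congr rfl fun r _ => ?_
    rw [AlternatingMap.domDomCongr_apply]
    congr 1
    funext i
    rw [Function.comp_apply]
    by_cases hi : i = r
    · subst hi
      rw [Function.update_self, Function.update_self]
    · rw [Function.update_of_ne hi, Function.update_of_ne (fun h => hi (σ.injective h))]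
  constructor
  · intro h v
    have h1 := key (fun j => v (σ.symm j))
    simp only [Equiv.symm_apply_apply] at h1
    rw [← h1]
    exact h _
  · intro h v
    rw [key]
    exact h _

/-- **An invariant form of small degree is annihilated by all skew-symmetric operators.** -/
theorem kills_of_exch (e : Basis (κ × Fin 2) ℝ V) {K : Set (V →ₗ[ℝ] V)} (hK : ExchK e K)
    {E : V →ₗ[ℝ] V →ₗ[ℝ] ℝ} (halt : ∀ v, E v v = 0)
    (h0 : ∀ i j, i ≠ j → ∀ ε δ, E (e (i, ε)) (e (j, δ)) = 0)
    (h1 : ∀ i, E (e (i, 0)) (e (i, 1)) ≠ 0)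
    (hKE : ∀ T ∈ K, ∀ u v, E (T u) v + E u (T v) = 0)
    {N : Type} [Fintype N] [DecidableEq N] (hN : Fintype.card N < Fintype.card κ)
    (ψ : V [⋀^N]→ₗ[ℝ] ℝ) (hψ : ∀ T ∈ K, Kills T ψ) {Y : V →ₗ[ℝ] V}
    (hY : ∀ u v, E (Y u) v + E u (Y v) = 0) : Kills Y ψ := by
  by_cases hpar : ∃ k, Fintype.card N = 2 * k
  · obtain ⟨k, hk⟩ := hpar
    have hcard : Fintype.card N = Fintype.card (Fin k × Fin 2) := by
      rw [Fintype.card_prod, Fintype.card_fin, Fintype.card_fin, hk, mul_comm]
    let σ : N ≃ Fin k × Fin 2 := Fintype.equivOfCardEq hcard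
    obtain ⟨c, hc⟩ := unique e hK (k := k) (by omega) (ψ.domDomCongr σ) (pw E k)
      (fun T hT => (kills_domDomCongr σ).2 (hψ T hT)) (fun T hT => kills_pw (hKE T hT) k)
      (fun α hα => pw_ne_zero halt h0 h1 hα)
    rw [← kills_domDomCongr σ, hc]
    intro v
    simp only [AlternatingMap.smul_apply, ← Finset.smul_sum]
    rw [kills_pw hY k v, smul_zero]
  · have hz : ψ = 0 := by
      refine e.ext_alternating fun v hv => ?_
      rw [AlternatingMap.zero_apply]
      refine zero_of_unpaired (hK.exch hψ) hv hN.ne fun hp => hpar ?_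
      let S := {a : κ // ∃ r, (v r).1 = a}
      have hb : Function.Bijective (fun r : N => ((⟨(v r).1, r, rfl⟩, (v r).2) : S × Fin 2)) := by
        constructor
        · intro r r' hr
          exact hv (Prod.ext (congrArg (fun x : S × Fin 2 => x.1.1) hr)
            (congrArg (fun x : S × Fin 2 => x.2) hr))
        · rintro ⟨⟨a, r, hr⟩, ε⟩
          rcases eq_or_other (v r).2 ε with h | h
          · exact ⟨r, Prod.ext (Subtype.ext hr) h.symm⟩
          · obtain ⟨t, ht⟩ := hp r (v r).1 (v r).2 rfl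
            refine ⟨t, Prod.ext (Subtype.ext ?_) ?_⟩
            · exact (congrArg Prod.fst ht).trans hr
            · exact (congrArg Prod.snd ht).trans h.symm
      haveI : Fintype S := Fintype.ofFinite S
      refine ⟨Fintype.card S, ?_⟩
      rw [Fintype.card_of_bijective hb, Fintype.card_prod, Fintype.card_fin, mul_comm]
    intro v
    rw [hz]
    simp

end Basic

section Slot

variable {W V N : Type} [AddCommGroup W] [Module ℝ W] [AddCommGroup V] [Module ℝ V] [Fintype N]
  [DecidableEq N]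

/-- the extension of a family by fixed vectors -/
def wx (L : W →ₗ[ℝ] V) (b : N → V) (s : Finset N) (y : s → W) : N → V :=
  fun q => if h : q ∈ s then L (y ⟨q, h⟩) else b q

omit [Fintype N] in
lemma wx_update (L : W →ₗ[ℝ] V) (b : N → V) (s : Finset N) (y : s → W) (r : s) (z : W) :
    wx L b s (Function.update y r z) = Function.update (wx L b s y) r.1 (L z) := by
  funext q
  unfold wx
  by_cases hq : q = r.1
  · subst hq
    rw [Function.update_self, dif_pos r.2]
    have h1 : (⟨r.1, r.2⟩ : s) = r := rfl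
    rw [h1, Function.update_self]
  · rw [Function.update_of_ne hq]
    by_cases hs : q ∈ s
    · rw [dif_pos hs, dif_pos hs, Function.update_of_ne]
      intro h
      exact hq (congrArg Subtype.val h)
    · rw [dif_neg hs, dif_neg hs]

/-- the form in the variables of a subset -/
def slot (ψ : V [⋀^N]→ₗ[ℝ] ℝ) (L : W →ₗ[ℝ] V) (b : N → V) (s : Finset N) : W [⋀^s]→ₗ[ℝ] ℝ :=
  { MultilinearMap.mk' (fun y : s → W => ψ (wx L b s y))
      (fun y r z z' => by
        rw [wx_update, wx_update, wx_update, map_add, AlternatingMap.map_update_add])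
      (fun y r c z => by
        rw [wx_update, wx_update, map_smul, AlternatingMap.map_update_smul]) with
    map_eq_zero_of_eq' := by
      intro y i j hij hne
      change ψ (wx L b s y) = 0
      refine ψ.map_eq_zero_of_eq _ (i := i.1) (j := j.1) ?_ (fun h => hne (Subtype.ext h))
      unfold wx
      rw [dif_pos i.2, dif_pos j.2]
      exact congrArg L hij }

lemma slot_apply (ψ : V [⋀^N]→ₗ[ℝ] ℝ) (L : W →ₗ[ℝ] V) (b : N → V) (s : Finset N) (y : s → W) :
    slot ψ L b s y = ψ (wx L b s y) := rfl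

lemma slot_sum (ψ : V [⋀^N]→ₗ[ℝ] ℝ) {L : W →ₗ[ℝ] V} {b : N → V} {s : Finset N}
    {T : V →ₗ[ℝ] V} {T' : W →ₗ[ℝ] W} (hT : ∀ x, T (L x) = L (T' x))
    (hb : ∀ r, r ∉ s → T (b r) = 0) (y : s → W) :
    ∑ r, ψ (Function.update (wx L b s y) r (T (wx L b s y r))) =
      ∑ r : s, slot ψ L b s (Function.update y r (T' (y r))) := by
  have h1 : ∑ r, ψ (Function.update (wx L b s y) r (T (wx L b s y r))) =
      ∑ r ∈ s, ψ (Function.update (wx L b s y) r (T (wx L b s y r))) := by
    symm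
    apply Finset.sum_subset (Finset.subset_univ _)
    intro r _ hr
    have h2 : wx L b s y r = b r := by
      unfold wx
      rw [dif_neg hr]
    rw [h2, hb r hr]
    exact ψ.map_update_zero _ _
  rw [h1, ← Finset.sum_coe_sort]
  refine Finset.sum_congr rfl fun r _ => ?_
  rw [slot_apply, wx_update, ← hT]
  congr 3
  unfold wx
  rw [dif_pos r.2]

end Slot

/-- **Operators on the first space annihilate the invariant forms of small degree.** -/
theorem kills_slot {V : Type} [AddCommGroup V] [Module ℝ V] (L : (κ × Fin 2 → ℝ) →ₗ[ℝ] V)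
    (hL : Function.Injective L) (V' : Submodule ℝ V) (hdec : ∀ v, ∃ x, v - L x ∈ V')
    {K : Set (V →ₗ[ℝ] V)} (hKr : ∀ T ∈ K, ∀ x, ∃ y, T (L x) = L y)
    (hK' : ∀ T ∈ K, ∀ v ∈ V', T v = 0)
    (hex : ExchK (fun r : κ × Fin 2 => L (Pi.single r 1)) K)
    {E : V →ₗ[ℝ] V →ₗ[ℝ] ℝ} (halt : ∀ v, E v v = 0)
    (h0 : ∀ i j, i ≠ j → ∀ ε δ,
      E (L (Pi.single (i, ε) 1)) (L (Pi.single (j, δ) 1)) = 0)
    (h1 : ∀ i, E (L (Pi.single (i, 0) 1)) (L (Pi.single (i, 1) 1)) ≠ 0)
    (hKE : ∀ T ∈ K, ∀ u v, E (T u) v + E u (T v) = 0)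
    {N : Type} [Fintype N] [DecidableEq N] (hN : Fintype.card N < Fintype.card κ)
    (ψ : V [⋀^N]→ₗ[ℝ] ℝ) (hψ : ∀ T ∈ K, Kills T ψ) {Y : V →ₗ[ℝ] V}
    (hYr : ∀ x, ∃ y, Y (L x) = L y) (hY' : ∀ v ∈ V', Y v = 0)
    (hYE : ∀ u v, E (Y u) v + E u (Y v) = 0) : Kills Y ψ := by
  obtain ⟨G, hG⟩ := L.exists_leftInverse_of_injective (LinearMap.ker_eq_bot.2 hL)
  have hGL : ∀ x, G (L x) = x := fun x => LinearMap.congr_fun hG x
  have hres : ∀ T : V →ₗ[ℝ] V, (∀ x, ∃ y, T (L x) = L y) →
      ∀ x, T (L x) = L ((G.comp (T.comp L)) x) := by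
    intro T hT x
    obtain ⟨y, hy⟩ := hT x
    rw [LinearMap.comp_apply, LinearMap.comp_apply, hy, hGL]
  let b' : Basis (κ × Fin 2) ℝ (κ × Fin 2 → ℝ) := Pi.basisFun ℝ (κ × Fin 2)
  have hb' : ∀ r, b' r = Pi.single r 1 := fun r => Pi.basisFun_apply ℝ _ r
  let K' : Set ((κ × Fin 2 → ℝ) →ₗ[ℝ] (κ × Fin 2 → ℝ)) := {T' | ∃ T ∈ K, T' = G.comp (T.comp L)}
  have hex' : ExchK b' K' := by
    intro i j hij
    obtain ⟨T, hT, c, h2, h3, h4⟩ := hex i j hij
    refine ⟨_, ⟨T, hT, rfl⟩, c, fun ε => ?_, fun ε => ?_, fun k hk1 hk2 ε => ?_⟩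
    · rw [LinearMap.comp_apply, LinearMap.comp_apply, hb', h2 ε, hGL, hb']
    · rw [LinearMap.comp_apply, LinearMap.comp_apply, hb', h3 ε, map_smul, hGL, hb']
    · rw [LinearMap.comp_apply, LinearMap.comp_apply, hb', h4 k hk1 hk2 ε, map_zero]
  intro v
  choose x hx using fun r => hdec (v r)
  let D : MultilinearMap ℝ (fun _ : N => V) ℝ :=
    ∑ p, ψ.toMultilinearMap.compLinearMap (fun p' => if p' = p then Y else LinearMap.id)
  have hD : ∀ u : N → V, D u = ∑ p, ψ (Function.update u p (Y (u p))) := by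
    intro u
    simp only [D]
    rw [MultilinearMap.sum_apply]
    refine Finset.sum_congr rfl fun p _ => ?_
    rw [MultilinearMap.compLinearMap_apply]
    change ψ _ = ψ _
    congr 1
    funext p'
    by_cases hp : p' = p
    · subst hp
      rw [if_pos rfl, Function.update_self]
    · rw [if_neg hp, Function.update_of_ne hp, LinearMap.id_apply]
  rw [← hD]
  have hv : v = (fun r => L (x r)) + fun r => v r - L (x r) := by
    funext r
    rw [Pi.add_apply, add_sub_cancel]
  rw [hv, D.map_add_univ]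
  refine Finset.sum_eq_zero fun s _ => ?_
  have hw : s.piecewise (fun r => L (x r)) (fun r => v r - L (x r)) =
      wx L (fun r => v r - L (x r)) s (fun r => x r.1) := by
    funext r
    unfold wx
    by_cases hr : r ∈ s
    · rw [Finset.piecewise_eq_of_mem _ _ _ hr, dif_pos hr]
    · rw [Finset.piecewise_eq_of_notMem _ _ _ hr, dif_neg hr]
  rw [hw, hD, slot_sum ψ (hres Y hYr) (fun r _ => hY' _ (hx r))]
  have hE' : ∀ u v, (E.compl₁₂ L L) u v = E (L u) (L v) := fun u v => by
    rw [LinearMap.compl₁₂_apply]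
  refine kills_of_exch b' hex' (E := E.compl₁₂ L L) (fun u => by rw [hE', halt])
    (fun i j hij ε δ => by rw [hE', hb', hb', h0 i j hij]) (fun i => by rw [hE', hb', hb']; exact h1 i)
    (fun T' hT' u v => ?_) (lt_of_le_of_lt ?_ hN) (slot ψ L _ s) (fun T' hT' y => ?_)
    (Y := G.comp (Y.comp L)) (fun u v => ?_) _
  · obtain ⟨T, hT, rfl⟩ := hT'
    rw [hE', hE', ← hres T (hKr T hT), ← hres T (hKr T hT), hKE T hT]
  · rw [Fintype.card_coe]
    exact Finset.card_le_univ s
  · obtain ⟨T, hT, rfl⟩ := hT'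
    rw [← slot_sum ψ (hres T (hKr T hT)) (fun r _ => hK' T hT _ (hx r))]
    exact hψ T hT _
  · rw [hE', hE', ← hres Y hYr, ← hres Y hYr, hYE]

end Pool.Agent.W5h86.LY
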