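import Pool.Agent.H86.CMLib9.W5h86.LY.Br5
import Pool.Agent.H86.CMLib9.W5h86.LY.Slot

set_option autoImplicit false

/-!
# The unitary Lie algebra of the place annihilates the de Rham-Betti classes
-/

open Module Function

noncomputable section

namespace Pool.Agent.W5h86.LY

open Pool.Agent.Y102 Pool.Agent.W516.DR Pool.Agent.W516.KC Pool.Agent.W5h86.LZ

variable {g : ℕ} {A : AbVar g} {P : Module.End ℚ A.H1}
  {M : (Fin g → ℂ) →ₗ[ℂ] (Fin g → ℂ)} {e : Basis (Fin g) ℂ (Fin g → ℂ)} {t : Fin g → ℝ}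
  {i0 : Fin g}

/-- the complementary part of the space -/
def VV (e : Basis (Fin g) ℂ (Fin g → ℂ)) (t : Fin g → ℝ) (i0 : Fin g) :
    Submodule ℝ (Fin g → ℂ) where
  carrier := {v | ∀ i, sc t i0 i = t i0 → (theta e i0).symm v i = 0}
  zero_mem' := fun i _ => by rw [map_zero, Pi.zero_apply]
  add_mem' := fun {a b} ha hb i hi => by rw [map_add, Pi.add_apply, ha i hi, hb i hi, add_zero]
  smul_mem' := fun c v hv i hi => by rw [map_smul, Pi.smul_apply, hv i hi, smul_zero]

lemma mem_VV {z : Fin g → ℂ} :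
    theta e i0 z ∈ VV e t i0 ↔ ∀ i, sc t i0 i = t i0 → z i = 0 := by
  change (∀ i, sc t i0 i = t i0 → (theta e i0).symm (theta e i0 z) i = 0) ↔ _
  rw [LinearEquiv.symm_apply_apply]

/-- independence of an orthogonal family -/
lemma li_of_orth {ι κ : Type} [Fintype ι] [DecidableEq ι] [Fintype κ] [DecidableEq κ]
    {H : Matrix ι ι ℂ} {B : κ → ι → ℂ}
    {σ : κ → ℝ} (hσ : ∀ i, σ i ≠ 0)
    (hB : ∀ i j, hf H (B i) (B j) = if i = j then (σ i : ℂ) else 0) : LinearIndependent ℂ B := by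
  rw [Fintype.linearIndependent_iff]
  intro c hc i
  have h1 : hf H (B i) (∑ j, c j • B j) = c i * σ i := by
    have h2 : ∀ s : Finset κ, hf H (B i) (∑ j ∈ s, c j • B j) =
        ∑ j ∈ s, c j * hf H (B i) (B j) := by
      intro s
      induction s using Finset.induction_on with
      | empty => rw [Finset.sum_empty, Finset.sum_empty, hf_zero_right]
      | insert a s ha ih =>
        rw [Finset.sum_insert ha, Finset.sum_insert ha, hf_add_right, hf_smul_right, ih]
    rw [h2, Finset.sum_eq_single i]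
    · rw [hB, if_pos rfl]
    · intro j _ hj
      rw [hB, if_neg (Ne.symm hj), mul_zero]
    · intro h
      exact absurd (Finset.mem_univ _) h
  rw [hc, hf_zero_right] at h1
  refine (mul_eq_zero.1 h1.symm).resolve_right ?_
  exact_mod_cast hσ i

/-- **The operators on the part of the place annihilate the de Rham-Betti classes of small
degree.** -/
theorem Setup2.kills (h : Setup2 A P M e t i0) (hdim : 3 ≤ finrank ℂ (UU t i0)) {k : ℕ}
    (hk : 2 * k < finrank ℂ (UU t i0)) (φ : A.H1 [⋀^Fin k × Fin 2]→ₗ[ℚ] ℚ)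
    (hφ : IsDeRhamBettiForm QBar A.dR tau k φ.toMultilinearMap)
    {Y : (Fin g → ℂ) →ₗ[ℝ] (Fin g → ℂ)}
    (hY1 : ∀ u ∈ UU t i0, ∃ u' ∈ UU t i0, Y (theta e i0 u) = theta e i0 u')
    (hY2 : ∀ v ∈ VV e t i0, Y v = 0) (hY3 : ∀ u v, A.E (Y u) v + A.E u (Y v) = 0) :
    Kills Y (MultilinearMap.alternatization (A.Phi φ.toMultilinearMap)) := by
  classical
  obtain ⟨m, hm⟩ : ∃ m, m + 2 = finrank ℂ (UU t i0) := ⟨finrank ℂ (UU t i0) - 2, by omega⟩
  have hud := h.udata hdim
  obtain ⟨B, σ, hBU, hσ, hB, hG⟩ := hud.exists_basis hm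
  have hBli := li_of_orth hσ hB
  -- the span
  have hspan : Submodule.span ℂ (Set.range B) = UU t i0 := by
    apply Submodule.eq_of_le_of_finrank_eq
    · rw [Submodule.span_le]
      rintro _ ⟨i, rfl⟩
      exact hBU i
    · rw [finrank_span_eq_card hBli, ← hm, Fintype.card_sum, Fintype.card_fin, Fintype.card_fin,
        add_comm]
  let cc : ((Fin 2 ⊕ Fin m) × Fin 2 → ℝ) → (Fin 2 ⊕ Fin m) → ℂ :=
    fun x i => (x (i, 0) : ℂ) + (x (i, 1) : ℂ) * Complex.I
  let L0 : ((Fin 2 ⊕ Fin m) × Fin 2 → ℝ) →ₗ[ℝ] (Fin g → ℂ) :=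
    { toFun := fun x => ∑ i, cc x i • B i
      map_add' := fun x y => by
        rw [← Finset.sum_add_distrib]
        refine Finset.sum_congr rfl fun i _ => ?_
        rw [← add_smul]
        congr 1
        simp only [cc, Pi.add_apply]
        push_cast
        ring
      map_smul' := fun c x => by
        rw [RingHom.id_apply, Finset.smul_sum]
        refine Finset.sum_congr rfl fun i _ => ?_
        funext j
        simp only [cc, Pi.smul_apply, smul_eq_mul, Complex.real_smul]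
        push_cast
        ring }
  have hL0 : ∀ x, L0 x = ∑ i, cc x i • B i := fun x => rfl
  let L : ((Fin 2 ⊕ Fin m) × Fin 2 → ℝ) →ₗ[ℝ] (Fin g → ℂ) := (theta e i0).toLinearMap.comp L0
  have hLx : ∀ x, L x = theta e i0 (L0 x) := fun x => rfl
  have hL0U : ∀ x, L0 x ∈ UU t i0 := fun x =>
    Submodule.sum_mem _ fun i _ => Submodule.smul_mem _ _ (hBU i)
  have hL0s : ∀ u ∈ UU t i0, ∃ x, L0 x = u := by
    intro u hu
    rw [← hspan, Submodule.mem_span_range_iff_exists_fun] at hu
    obtain ⟨c, hc⟩ := hu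
    refine ⟨fun r => if r.2 = 0 then (c r.1).re else (c r.1).im, ?_⟩
    rw [hL0, ← hc]
    refine Finset.sum_congr rfl fun i _ => ?_
    congr 1
    simp only [cc]
    rw [if_pos trivial, if_neg one_ne_zero]
    exact Complex.re_add_im _
  have hLinj : Function.Injective L := by
    rw [← LinearMap.ker_eq_bot, LinearMap.ker_eq_bot']
    intro x hx
    rw [hLx] at hx
    have h1 : L0 x = 0 := (theta e i0).injective (by rw [hx, map_zero])
    have h2 := Fintype.linearIndependent_iff.1 hBli (cc x) h1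
    have hε : ∀ ε : Fin 2, ε = 0 ∨ ε = 1 := by decide
    funext ⟨i, ε⟩
    have h3 := h2 i
    simp only [cc] at h3
    have h4 := congrArg Complex.re h3
    have h5 := congrArg Complex.im h3
    simp only [Complex.add_re, Complex.ofReal_re, Complex.mul_re, Complex.I_re, mul_zero,
      Complex.ofReal_im, Complex.I_im, mul_one, sub_self, add_zero, Complex.zero_re] at h4
    simp only [Complex.add_im, Complex.ofReal_im, Complex.mul_im, Complex.ofReal_re, Complex.I_im,
      mul_one, Complex.I_re, mul_zero, add_zero, zero_add, Complex.zero_im] at h5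
    rcases hε ε with rfl | rfl
    · exact h4
    · exact h5
  have hLs0 : ∀ i, L (Pi.single (i, 0) 1) = theta e i0 (B i) := by
    intro i
    rw [hLx, hL0, Finset.sum_eq_single i]
    · simp [cc]
    · intro j _ hj
      have h1 : ((j, 0) : (Fin 2 ⊕ Fin m) × Fin 2) ≠ (i, 0) := fun h => hj (congrArg Prod.fst h)
      have h2 : ((j, 1) : (Fin 2 ⊕ Fin m) × Fin 2) ≠ (i, 0) := fun h => hj (congrArg Prod.fst h)
      simp only [cc]
      rw [Pi.single_eq_of_ne h1, Pi.single_eq_of_ne h2]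
      simp
    · intro h
      exact absurd (Finset.mem_univ _) h
  have hLs1 : ∀ i, L (Pi.single (i, 1) 1) = theta e i0 (Complex.I • B i) := by
    intro i
    rw [hLx, hL0, Finset.sum_eq_single i]
    · simp [cc]
    · intro j _ hj
      have h1 : ((j, 0) : (Fin 2 ⊕ Fin m) × Fin 2) ≠ (i, 1) := fun h => hj (congrArg Prod.fst h)
      have h2 : ((j, 1) : (Fin 2 ⊕ Fin m) × Fin 2) ≠ (i, 1) := fun h => hj (congrArg Prod.fst h)
      simp only [cc]
      rw [Pi.single_eq_of_ne h1, Pi.single_eq_of_ne h2]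
      simp
    · intro h
      exact absurd (Finset.mem_univ _) h
  have hε : ∀ ε : Fin 2, ε = 0 ∨ ε = 1 := by decide
  have hbT : ∀ (T : Matrix (Fin g) (Fin g) ℂ) (i j) (c : ℝ),
      T.mulVec (B i) = (c : ℂ) • B j → ∀ ε, tr (theta e i0) T (L (Pi.single (i, ε) 1)) =
        c • L (Pi.single (j, ε) 1) := by
    intro T i j c hT ε
    have hreal : ∀ z : Fin g → ℂ, (c : ℂ) • z = c • z := by
      intro z
      funext x
      simp
    rcases hε ε with rfl | rfl
    · rw [hLs0, hLs0, tr_theta, hT, hreal, map_smul]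
    · rw [hLs1, hLs1, tr_theta, Matrix.mulVec_smul, hT, hreal, smul_comm, map_smul]
  have hIm : ∀ z w, A.E (theta e i0 z) (theta e i0 w) = (hf (HA A e i0) z w).im := by
    intro z w
    rw [hf_Hm h.cx]
    simp
  have hdec : ∀ v, ∃ x, v - L x ∈ VV e t i0 := by
    intro v
    obtain ⟨z, rfl⟩ := (theta e i0).surjective v
    obtain ⟨x, hx⟩ := hL0s (fun i => if sc t i0 i = t i0 then z i else 0) (by
      rw [mem_UU]
      intro i hi
      rw [if_neg hi])
    refine ⟨x, ?_⟩
    rw [hLx, hx, ← map_sub, mem_VV]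
    intro i hi
    rw [Pi.sub_apply, if_pos hi, sub_self]
  set K : Set ((Fin g → ℂ) →ₗ[ℝ] (Fin g → ℂ)) := {T | T ∈ A.CR A.LA ∧
    (∀ x, ∃ y, T (L x) = L y) ∧ ∀ v ∈ VV e t i0, T v = 0} with hK
  have hskew : ∀ T ∈ K, ∀ u v, A.E (T u) v + A.E u (T v) = 0 := fun T hT u v =>
    CR_skew (fun X hX => A.LA_skew hX) hT.1 u v
  refine kills_slot L hLinj (VV e t i0) hdec (K := K) (fun T hT => hT.2.1) (fun T hT => hT.2.2) ?_
    A.E_self ?_ ?_ hskew (N := Fin k × Fin 2) ?_ _ ?_ ?_ hY2 hY3
  · intro i j hij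
    obtain ⟨T, hT, c, -, h1, h2, h3, h4⟩ := hG i j hij
    refine ⟨tr (theta e i0) T, ⟨hT, fun x => ?_, fun v hv => ?_⟩, c, fun ε => ?_,
      hbT T i j c h2, fun k hk1 hk2 ε => ?_⟩
    · obtain ⟨y, hy⟩ := hL0s (T.mulVec (L0 x)) (hud.st T hT _ (hL0U x))
      exact ⟨y, by rw [hLx, hLx, tr_theta, hy]⟩
    · obtain ⟨w, rfl⟩ := (theta e i0).surjective v
      have hw := mem_VV.1 hv
      rw [tr_theta, h4 w, map_zero]
      intro l
      have hBl := (mem_UU (B l)).1 (hBU l)
      have o1 := h.orth1 hBl hw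
      have o2 := h.orth1 (z := B l) (w := Complex.I • w) hBl (fun i hi => by
        rw [Pi.smul_apply, hw i hi, smul_zero])
      rw [hf_Hm h.cx, Jc_theta, o1, o2]
      simp
    · have h5 := hbT T j i 1 (by rw [h1, Complex.ofReal_one, one_smul]) ε
      rw [one_smul] at h5
      exact h5
    · have h5 := hbT T k k 0 (by rw [h3 k hk1 hk2, Complex.ofReal_zero, zero_smul]) ε
      rw [zero_smul] at h5
      exact h5
  · intro i j hij ε δ
    have h1 := hB i j
    rw [if_neg hij] at h1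
    rcases hε ε with rfl | rfl <;> rcases hε δ with rfl | rfl
    · rw [hLs0, hLs0, hIm, h1, Complex.zero_im]
    · rw [hLs0, hLs1, hIm, hf_smul_right, h1, mul_zero, Complex.zero_im]
    · rw [hLs1, hLs0, hIm, hf_smul_left, h1, mul_zero, Complex.zero_im]
    · rw [hLs1, hLs1, hIm, hf_smul_right, hf_smul_left, h1, mul_zero, mul_zero, Complex.zero_im]
  · intro i
    rw [hLs0, hLs1, hIm, hf_smul_right, hB, if_pos rfl, Complex.mul_im, Complex.I_re, Complex.I_im,
      Complex.ofReal_re, Complex.ofReal_im, mul_zero, one_mul, zero_add]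
    exact hσ i
  · rw [Fintype.card_prod, Fintype.card_fin, Fintype.card_fin, Fintype.card_sum, Fintype.card_fin,
      Fintype.card_fin]
    omega
  · intro T hT
    refine kills_alternatization fun u => ?_
    exact A.Phi_kills φ.toMultilinearMap T
      (fun f v => AbVar.kills_of_mem A hφ (A.CR_cmp hT.1 f) v) u
  · intro x
    obtain ⟨u', hu', h1⟩ := hY1 _ (hL0U x)
    obtain ⟨y, hy⟩ := hL0s u' hu'
    exact ⟨y, by rw [hLx, hLx, h1, hy]⟩

end Pool.Agent.W5h86.LY
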