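import Pool.Agent.H86.CMLib9.W5h86.LY.PF2

set_option autoImplicit false

/-!
# The structure of graded Lie algebras with an irreducible subspace
-/

open Matrix Module

namespace Pool.Agent.W5h86.LY

open Pool.Agent.W5h86.LZ

variable {ι : Type} [Fintype ι] [DecidableEq ι]

/-- A graded Lie algebra with an irreducible subspace. -/
structure GU (𝔥 : Submodule ℝ (Matrix ι ι ℂ)) (p q : ι) (U : Submodule ℂ (ι → ℂ)) : Prop where
  ne : p ≠ q
  br : ∀ X ∈ 𝔥, ∀ Y ∈ 𝔥, X * Y - Y * X ∈ 𝔥
  skew : ∀ X ∈ 𝔥, Xᴴ * J p q + J p q * X = 0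
  pr : ∀ X ∈ 𝔥, ∀ k, pr p q k X ∈ 𝔥
  ep : ee p ∈ U
  eq : ee q ∈ U
  st : ∀ X ∈ 𝔥, ∀ u ∈ U, X *ᵥ u ∈ U
  irr : ∀ N : Submodule ℂ (ι → ℂ), N ≤ U → (∀ X ∈ 𝔥, ∀ u ∈ N, X *ᵥ u ∈ N) → N = ⊥ ∨ N = U
  dim : 3 ≤ finrank ℂ U

variable {𝔥 : Submodule ℝ (Matrix ι ι ℂ)} {p q : ι} {U : Submodule ℂ (ι → ℂ)}

lemma GU.symm (h : GU 𝔥 p q U) : GU 𝔥 q p U := by
  refine ⟨h.ne.symm, h.br, ?_, fun X hX k => ?_, h.eq, h.ep, h.st, h.irr, h.dim⟩
  · rw [J_comm p q h.ne]
    exact h.skew
  · have h1 := h.pr X hX (-k)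
    have h2 : LZ.pr q p k X = LZ.pr p q (-k) X := by
      ext i j
      simp only [LZ.pr, of_apply, dg_comm p q h.ne]
      by_cases hk : dg p q i - dg p q j = -k
      · rw [if_pos hk, if_pos (by linarith)]
      · rw [if_neg hk, if_neg (fun h' => hk (by linarith))]
    rw [h2]
    exact h1

/-- the first component -/
lemma GU.memA (h : GU 𝔥 p q U) {X : Matrix ι ι ℂ} (hX : X ∈ 𝔥) :
    tv p q (X *ᵥ ee q) ∈ AA 𝔥 p q := by
  refine ⟨tv_p _ _ _, tv_q _ _ _, ?_⟩
  have h1 := h.pr X hX 1
  have hsk := (skw_iff h.ne X).1 (h.skew X hX)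
  have h2 : XX p q (tv p q (X *ᵥ ee q)) = LZ.pr p q 1 X := by
    ext i j
    simp only [XX, LZ.pr, of_apply, tv, mulVec_ee]
    by_cases hip : i = p
    · subst hip
      by_cases hjp : j = i
      · subst hjp
        simp [h.ne]
      · by_cases hjq : j = q
        · subst hjq
          simp [dg_p, dg_q h.ne]
        · have h3 := hsk q j
          rw [Equiv.swap_apply_right, Equiv.swap_apply_of_ne_of_ne hjp hjq] at h3
          simp only [sg, hjp, hjq, or_self, if_false, or_true, if_true] at h3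
          simp only [dg_p, dg_o hjp hjq, hjp, hjq, or_self, if_false, if_true, sub_zero]
          linear_combination -h3
    · by_cases hiq : i = q
      · subst hiq
        by_cases hjp : j = p
        · subst hjp
          simp [dg_p, dg_q h.ne, h.ne, h.ne.symm]
        · by_cases hjq : j = i
          · subst hjq
            simp [h.ne.symm]
          · simp [dg_q h.ne, dg_o hjp hjq, hjq, h.ne.symm]
      · by_cases hjp : j = p
        · subst hjp
          simp [dg_p, dg_o hip hiq, hip, h.ne]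
        · by_cases hjq : j = q
          · subst hjq
            simp [dg_q h.ne, dg_o hip hiq, hip, hiq]
          · simp [dg_o hip hiq, dg_o hjp hjq, hip, hjq]
  rw [h2]
  exact h1

/-- the second component -/
lemma GU.memE (h : GU 𝔥 p q U) {X : Matrix ι ι ℂ} (hX : X ∈ 𝔥) : EE p q (X p q) ∈ 𝔥 := by
  have h1 := h.pr X hX 2
  have h2 : EE p q (X p q) = LZ.pr p q 2 X := by
    ext i j
    simp only [EE, LZ.pr, of_apply]
    by_cases hip : i = p
    · subst hip
      by_cases hjp : j = i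
      · subst hjp
        simp [h.ne]
      · by_cases hjq : j = q
        · subst hjq
          simp [dg_p, dg_q h.ne]
        · simp [dg_p, dg_o hjp hjq, hjq]
    · by_cases hiq : i = q
      · subst hiq
        by_cases hjp : j = p
        · subst hjp
          simp [dg_p, dg_q h.ne, h.ne.symm]
        · by_cases hjq : j = i
          · subst hjq
            simp [h.ne.symm]
          · simp [dg_q h.ne, dg_o hjp hjq, h.ne.symm]
      · by_cases hjp : j = p
        · subst hjp
          simp [dg_p, dg_o hip hiq, hip]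
        · by_cases hjq : j = q
          · subst hjq
            simp [dg_q h.ne, dg_o hip hiq, hip]
          · simp [dg_o hip hiq, dg_o hjp hjq, hip]
  rw [h2]
  exact h1

/-- **the triple relation** -/
lemma GU.triple (h : GU 𝔥 p q U) {a b c : ι → ℂ} (ha : a ∈ AA 𝔥 p q) (hc : c ∈ AA 𝔥 p q)
    (hb : b ∈ AA 𝔥 q p) : sp b c • a - sp a c • b + sp b a • c ∈ AA 𝔥 p q := by
  obtain ⟨a1, a2, a3⟩ := ha
  obtain ⟨b1, b2, b3⟩ := hb
  obtain ⟨c1, c2, c3⟩ := hc
  have h1 := h.br _ a3 _ b3
  have h2 := h.memA (h.br _ h1 _ c3)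
  have h3 : ((XX p q a * XX q p b - XX q p b * XX p q a) * XX p q c -
      XX p q c * (XX p q a * XX q p b - XX q p b * XX p q a)) *ᵥ ee q =
      sp b c • a - sp a c • b + sp b a • c := by
    simp only [sub_mulVec, ← mulVec_mulVec]
    rw [XX_q c2, XX_v (p := q) (q := p) c1, XX_v (p := p) (q := q) c2, XX_q a2,
      XX_p (p := q) (q := p) h.ne.symm b1, XX_v (p := q) (q := p) a1, mulVec_smul, mulVec_smul,
      XX_q a2, XX_q (p := q) (q := p) b2, mulVec_zero, zero_sub, mulVec_neg, mulVec_smul, XX_q c2,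
      sub_neg_eq_add]
  rw [h3, tv_self] at h2
  · exact h2
  · simp only [Pi.add_apply, Pi.sub_apply, Pi.smul_apply, smul_eq_mul, a1, b2, c1, mul_zero,
      sub_zero, add_zero]
  · simp only [Pi.add_apply, Pi.sub_apply, Pi.smul_apply, smul_eq_mul, a2, b1, c2, mul_zero,
      sub_zero, add_zero]

lemma GU.memE2 (h : GU 𝔥 p q U) {a c : ι → ℂ} (ha : a ∈ AA 𝔥 p q) (hc : c ∈ AA 𝔥 p q) :
    EE p q (sp a c - sp c a) ∈ 𝔥 := by
  obtain ⟨a1, a2, a3⟩ := ha
  obtain ⟨c1, c2, c3⟩ := hc
  have h1 := h.memE (h.br _ a3 _ c3)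
  have h2 : (XX p q a * XX p q c - XX p q c * XX p q a) p q = sp a c - sp c a := by
    rw [← mulVec_ee (XX p q a * XX p q c - XX p q c * XX p q a) q p, sub_mulVec,
      ← mulVec_mulVec, ← mulVec_mulVec, XX_q c2, XX_q a2, XX_v c2, XX_v a2]
    simp
  rw [h2] at h1
  exact h1

lemma GU.twist (h : GU 𝔥 p q U) {τ : ℂ} (hτ : EE p q τ ∈ 𝔥) {b : ι → ℂ} (hb : b ∈ AA 𝔥 q p) :
    -(τ • b) ∈ AA 𝔥 p q := by
  obtain ⟨b1, b2, b3⟩ := hb
  have h1 := h.memA (h.br _ hτ _ b3)
  have h2 : (EE p q τ * XX q p b - XX q p b * EE p q τ) *ᵥ ee q = -(τ • b) := by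
    rw [sub_mulVec, ← mulVec_mulVec, ← mulVec_mulVec, XX_p (p := q) (q := p) h.ne.symm b1,
      EE_mulVec p q τ (ee q), ee_same, mul_one, mulVec_smul, XX_q (p := q) (q := p) b2,
      mulVec_zero, zero_sub]
  rw [h2, tv_self] at h1
  · exact h1
  · simp [b2]
  · simp [b1]

lemma GU.stab (h : GU 𝔥 p q U) {X : Matrix ι ι ℂ} (hX : X ∈ 𝔥) {s : ι → ℂ} (hs : s ∈ AA 𝔥 q p) :
    tv p q (X *ᵥ s) ∈ SA 𝔥 q p := by
  obtain ⟨s1, s2, s3⟩ := hs
  have h1 := h.symm.memA (h.br _ (h.pr X hX 0) _ s3)
  have h2 : LZ.pr p q 0 X *ᵥ ee p = X p p • ee p := by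
    funext i
    rw [mulVec_ee]
    simp only [LZ.pr, of_apply, Pi.smul_apply, smul_eq_mul]
    by_cases hip : i = p
    · subst hip
      simp
    · by_cases hiq : i = q
      · subst hiq
        simp [dg_p, dg_q h.ne, h.ne.symm]
      · simp [dg_p, dg_o hip hiq, hip]
  have h3 : tv p q (LZ.pr p q 0 X *ᵥ s) = tv p q (X *ᵥ s) := by
    funext i
    simp only [tv]
    by_cases hip : i = p
    · simp [hip]
    · by_cases hiq : i = q
      · simp [hiq]
      · simp only [hip, hiq, or_self, if_false, mulVec, dotProduct, LZ.pr, of_apply,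
          dg_o hip hiq, zero_sub, neg_eq_zero]
        refine Finset.sum_congr rfl fun j _ => ?_
        by_cases hjp : j = p
        · subst hjp
          rw [s2, mul_zero, mul_zero]
        · by_cases hjq : j = q
          · subst hjq
            rw [s1, mul_zero, mul_zero]
          · rw [dg_o hjp hjq, if_pos rfl]
  have h4 : (LZ.pr p q 0 X * XX q p s - XX q p s * LZ.pr p q 0 X) *ᵥ ee p =
      LZ.pr p q 0 X *ᵥ s - X p p • s := by
    rw [sub_mulVec, ← mulVec_mulVec, ← mulVec_mulVec, h2, mulVec_smul,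
      XX_q (p := q) (q := p) s2]
  rw [h4, tv_comm] at h1
  have h5 : tv p q (X *ᵥ s) = tv p q (LZ.pr p q 0 X *ᵥ s - X p p • s) + X p p • s := by
    rw [← h3]
    funext i
    simp only [tv, Pi.add_apply, Pi.sub_apply, Pi.smul_apply, smul_eq_mul]
    split_ifs with hi
    · rcases hi with rfl | rfl
      · rw [s2, mul_zero, add_zero]
      · rw [s1, mul_zero, add_zero]
    · ring
  rw [h5]
  exact Submodule.add_mem _ (Submodule.subset_span h1)
    (Submodule.smul_mem _ _ (Submodule.subset_span ⟨s1, s2, s3⟩))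

lemma GU.mem_of (h : GU 𝔥 p q U) {b : ι → ℂ} (hb : b ∈ AA 𝔥 q p) : b ∈ U := by
  have h1 := h.st _ hb.2.2 _ h.ep
  rw [XX_q (p := q) (q := p) hb.2.1] at h1
  exact h1

lemma GU.SA_le (h : GU 𝔥 p q U) : SA 𝔥 q p ≤ U := Submodule.span_le.2 fun _ hb => h.mem_of hb

lemma GU.top_of (h : GU 𝔥 p q U) (hA : ∀ a ∈ AA 𝔥 p q, a ∈ SA 𝔥 q p) :
    SA 𝔥 q p ⊔ Submodule.span ℂ {ee p} ⊔ Submodule.span ℂ {ee q} = U := by
  set N := SA 𝔥 q p ⊔ Submodule.span ℂ {ee p} ⊔ Submodule.span ℂ {ee q} with hN
  have hS : SA 𝔥 q p ≤ N := le_sup_left.trans le_sup_left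
  have hp : ee p ∈ N := (le_sup_right.trans le_sup_left : Submodule.span ℂ {ee p} ≤ N)
    (Submodule.mem_span_singleton_self _)
  have hq : ee q ∈ N := (le_sup_right : Submodule.span ℂ {ee q} ≤ N)
    (Submodule.mem_span_singleton_self _)
  have hNU : N ≤ U := by
    refine sup_le (sup_le h.SA_le ?_) ?_
    · rw [Submodule.span_singleton_le_iff_mem]
      exact h.ep
    · rw [Submodule.span_singleton_le_iff_mem]
      exact h.eq
  have hdec : ∀ v, tv p q v ∈ N → v ∈ N := by
    intro v hv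
    rw [tv_decomp h.ne v]
    exact N.add_mem (N.add_mem hv (N.smul_mem _ hp)) (N.smul_mem _ hq)
  have hst : ∀ X ∈ 𝔥, ∀ u ∈ N, X *ᵥ u ∈ N := by
    intro X hX
    have h1 : N ≤ N.comap X.mulVecLin := by
      rw [hN]
      refine sup_le (sup_le ?_ ?_) ?_
      · rw [Submodule.span_le]
        intro s hs
        exact hdec _ (hS (h.stab hX hs))
      · rw [Submodule.span_singleton_le_iff_mem]
        refine hdec _ (hS (Submodule.subset_span ?_))
        rw [← tv_comm]
        exact h.symm.memA hX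
      · rw [Submodule.span_singleton_le_iff_mem]
        exact hdec _ (hS (hA _ (h.memA hX)))
    intro u hu
    exact h1 hu
  rcases h.irr N hNU hst with h1 | h1
  · exfalso
    rw [h1, Submodule.mem_bot] at hp
    have h2 := congrFun hp p
    rw [ee_same] at h2
    exact one_ne_zero h2
  · exact h1

omit [Fintype ι] in
lemma span_pair_dim (p q : ι) :
    finrank ℂ (Submodule.span ℂ {ee p} ⊔ Submodule.span ℂ {ee q} : Submodule ℂ (ι → ℂ)) ≤ 2 := by
  have h1 := Submodule.finrank_add_le_finrank_add_finrank (Submodule.span ℂ {ee p})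
    (Submodule.span ℂ ({ee q} : Set (ι → ℂ)))
  have h2 : finrank ℂ (Submodule.span ℂ ({ee p} : Set (ι → ℂ))) ≤ 1 :=
    (finrank_span_le_card _).trans (by simp)
  have h3 : finrank ℂ (Submodule.span ℂ ({ee q} : Set (ι → ℂ))) ≤ 1 :=
    (finrank_span_le_card _).trans (by simp)
  omega

/-- the part of degree `-1` is not zero -/
lemma GU.exists_ne (h : GU 𝔥 p q U) : ∃ b ∈ AA 𝔥 q p, b ≠ 0 := by
  by_contra hcon
  push Not at hcon
  by_cases hE : ∃ X ∈ 𝔥, X q p ≠ 0
  · obtain ⟨X, hX, hX0⟩ := hE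
    have h1 := h.symm.memE hX
    have h2 : ∀ a ∈ AA 𝔥 p q, a = 0 := by
      intro a ha
      have h3 := hcon _ (h.symm.twist h1 ha)
      rw [neg_eq_zero] at h3
      exact (smul_eq_zero.1 h3).resolve_left hX0
    have h3 := h.top_of (fun a ha => by
      rw [h2 a ha]
      exact Submodule.zero_mem _)
    have h4 : SA 𝔥 q p = ⊥ := by
      rw [Submodule.span_eq_bot]
      exact hcon
    rw [h4, bot_sup_eq] at h3
    have h5 := span_pair_dim p q
    rw [h3] at h5
    have := h.dim
    omega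
  · push Not at hE
    rcases h.irr (Submodule.span ℂ {ee p}) (by
      rw [Submodule.span_singleton_le_iff_mem]
      exact h.ep) (fun X hX u hu => by
      obtain ⟨α, rfl⟩ := Submodule.mem_span_singleton.1 hu
      rw [mulVec_smul]
      refine Submodule.smul_mem _ _ ?_
      have h1 := hcon _ (h.symm.memA hX)
      rw [tv_comm] at h1
      rw [tv_decomp h.ne (X *ᵥ ee p), h1, mulVec_ee, mulVec_ee, hE X hX, zero_smul, zero_add,
        add_zero]
      exact Submodule.smul_mem _ _ (Submodule.mem_span_singleton_self _)) with h1 | h1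
    · rw [Submodule.span_singleton_eq_bot] at h1
      have h2 := congrFun h1 p
      rw [ee_same] at h2
      exact one_ne_zero h2
    · have h2 : finrank ℂ (Submodule.span ℂ ({ee p} : Set (ι → ℂ))) ≤ 1 :=
        (finrank_span_le_card _).trans (by simp)
      rw [h1] at h2
      have := h.dim
      omega

/-- the part of degree `-1` spans the transversal space -/
lemma GU.top (h : GU 𝔥 p q U) :
    SA 𝔥 q p ⊔ Submodule.span ℂ {ee p} ⊔ Submodule.span ℂ {ee q} = U := by
  obtain ⟨b, hb, hb0⟩ := h.exists_ne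
  refine h.top_of fun a ha => ?_
  have h1 := h.symm.triple hb hb ha
  have h2 : sp b b ≠ 0 := by
    rw [sp_self]
    exact_mod_cast (sp_self_pos hb0).ne'
  have h3 : a = (-(sp b b)⁻¹) • (sp a b • b - sp b b • a + sp a b • b) +
      (2 * (sp b b)⁻¹ * sp a b) • b := by
    funext i
    simp only [Pi.add_apply, Pi.sub_apply, Pi.smul_apply, smul_eq_mul]
    field_simp
    ring
  rw [h3]
  exact Submodule.add_mem _ (Submodule.smul_mem _ _ (Submodule.subset_span h1))
    (Submodule.smul_mem _ _ (Submodule.subset_span hb))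

/-- **the part of degree `-1` is contained in the part of degree `1`** -/
theorem GU.le (h : GU 𝔥 p q U) {b : ι → ℂ}
    (hb : b ∈ AA 𝔥 q p) : b ∈ AA 𝔥 p q := by
  by_cases hb0 : b = 0
  · rw [hb0]
    exact Submodule.zero_mem _
  have hbb := sp_self_pos hb0
  by_cases hcase : ∃ a ∈ AA 𝔥 p q, ∃ c ∈ AA 𝔥 p q, (sp a c).im ≠ 0
  · obtain ⟨a, ha, c, hc, hac⟩ := hcase
    have h1 := h.memE2 ha hc
    have h2 : sp a c - sp c a = (2 * (sp a c).im : ℝ) * Complex.I := by
      rw [sp_swap a c, Complex.star_def]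
      apply Complex.ext
      · simp
      · simp
        ring
    rw [h2] at h1
    have h3 := h.twist h1 hb
    have h4 : Complex.I • b ∈ AA 𝔥 p q := by
      have h5 := real_smul_mem h3 (-(2 * (sp a c).im)⁻¹)
      have h6 : ((-(2 * (sp a c).im)⁻¹ : ℝ) : ℂ) • -(((2 * (sp a c).im : ℝ) * Complex.I) • b) =
          Complex.I • b := by
        rw [smul_neg, smul_smul, ← neg_smul]
        congr 1
        have h7 : ((sp a c).im : ℂ) ≠ 0 := by exact_mod_cast hac
        push_cast
        field_simp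
      rw [h6] at h5
      exact h5
    have h5 := h.triple h4 h4 hb
    have h6 : sp b (Complex.I • b) • (Complex.I • b) - sp (Complex.I • b) (Complex.I • b) • b +
        sp b (Complex.I • b) • (Complex.I • b) = (((-3 * (sp b b).re) : ℝ) : ℂ) • b := by
      rw [sp_smul_left, sp_smul_right, smul_smul, ← sub_smul, ← add_smul]
      congr 1
      rw [sp_self b, Complex.star_def, Complex.conj_I]
      push_cast
      linear_combination (3 * ((sp b b).re : ℂ)) * Complex.I_sq
    rw [h6] at h5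
    have h7 := real_smul_mem h5 (-3 * (sp b b).re)⁻¹
    have h8 : ((((-3 * (sp b b).re)⁻¹ : ℝ) : ℂ) • (((-3 * (sp b b).re) : ℝ) : ℂ) • b) = b := by
      rw [smul_smul, ← Complex.ofReal_mul, inv_mul_cancel₀ (by
        have := hbb.ne'
        simp [this]), Complex.ofReal_one, one_smul]
    rw [h8] at h7
    exact h7
  · push Not at hcase
    obtain ⟨a, ha, ha0⟩ := h.symm.exists_ne
    have haa := sp_self_pos ha0
    have h1 := h.triple ha ha hb
    have h2 := hcase _ h1 _ ha
    have h3 : (sp b a).im = 0 := by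
      have h4 : sp (sp b a • a - sp a a • b + sp b a • a) a =
          2 * star (sp b a) * sp a a - sp a a * sp b a := by
        have e1 : sp b a • a - sp a a • b + sp b a • a = (2 * sp b a) • a + (-sp a a) • b := by
          funext i
          simp only [Pi.add_apply, Pi.sub_apply, Pi.smul_apply, smul_eq_mul]
          ring
        rw [e1, sp_add_left, sp_smul_left, sp_smul_left, star_mul, star_neg]
        have e2 : star (sp a a) = sp a a := (sp_swap a a).symm
        rw [e2]
        simp only [Complex.star_def, map_ofNat]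
        ring
      rw [h4, sp_self a] at h2
      simp only [Complex.sub_im, Complex.mul_im, Complex.mul_re, Complex.ofReal_re,
        Complex.ofReal_im, Complex.star_def, Complex.conj_re, Complex.conj_im, mul_zero,
        zero_mul, add_zero, zero_add] at h2
      norm_num at h2
      have h5 : (sp a a).re * (sp b a).im = 0 := by linarith
      exact (mul_eq_zero.1 h5).resolve_left haa.ne'
    have h4 : sp b a = ((sp b a).re : ℂ) := by
      apply Complex.ext
      · simp
      · simp [h3]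
    have h5 : ((sp a a).re : ℂ) • b = ((2 * (sp b a).re : ℝ) : ℂ) • a -
        (sp b a • a - sp a a • b + sp b a • a) := by
      rw [h4, sp_self a]
      funext i
      simp only [Pi.add_apply, Pi.sub_apply, Pi.smul_apply, smul_eq_mul, Complex.ofReal_re]
      push_cast
      ring
    have h6 : ((sp a a).re : ℂ) • b ∈ AA 𝔥 p q := by
      rw [h5]
      exact Submodule.sub_mem _ (real_smul_mem ha _) h1
    have h7 := real_smul_mem h6 ((sp a a).re)⁻¹
    rw [smul_smul, ← Complex.ofReal_mul, inv_mul_cancel₀ haa.ne', Complex.ofReal_one,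
      one_smul] at h7
    exact h7

lemma GU.proj (h : GU 𝔥 p q U) {a b : ι → ℂ}
    (ha : a ∈ AA 𝔥 q p) (hb : b ∈ AA 𝔥 q p) : sp a b • a ∈ AA 𝔥 q p := by
  have h1 := h.symm.triple ha ha (h.le hb)
  -- `⟨b, a⟩ a - ⟨a, a⟩ b + ⟨b, a⟩ a`
  have h2 : sp b a • a ∈ AA 𝔥 q p := by
    have h3 : ((sp a a).re : ℂ) • b ∈ AA 𝔥 q p := real_smul_mem hb _
    have h4 := real_smul_mem (Submodule.add_mem _ h1 h3) (1 / 2)
    have h5 : (((1 / 2 : ℝ)) : ℂ) • (sp b a • a - sp a a • b + sp b a • a +
        ((sp a a).re : ℂ) • b) = sp b a • a := by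
      rw [← sp_self a]
      funext i
      simp only [Pi.add_apply, Pi.sub_apply, Pi.smul_apply, smul_eq_mul]
      push_cast
      ring
    rw [h5] at h4
    exact h4
  have h3 : sp a b • a = ((2 * (sp a b).re : ℝ) : ℂ) • a - sp b a • a := by
    rw [sp_swap a b, Complex.star_def, ← sub_smul]
    congr 1
    apply Complex.ext
    · simp
      ring
    · simp
  rw [h3]
  exact Submodule.sub_mem _ (real_smul_mem ha _) h2

end Pool.Agent.W5h86.LY
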